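import Mathlib

/-!
# A one-dimensional integral estimate

For a `π`-periodic weight `W` with values in `[0,1]` and a frequency `z` at distance `η` from an
integer, the integral of `W θ * (a - 4 sin² (z θ + ψ))` over `[0, τ]` is at most `π a / η + π a`.
-/

open Real Finset intervalIntegral

namespace Pool.Agent.Arnold

/-- telescoping identity for sums of cosines in arithmetic progression -/
lemma sum_cos_identity (α β : ℝ) (N : ℕ) :
    2 * sin β * ∑ p ∈ range N, cos (2 * α + 2 * p * β) =
      sin (2 * α + (2 * N - 1) * β) - sin (2 * α - β) := by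
  induction N with
  | zero => simp; ring_nf
  | succ N ih =>
    rw [Finset.sum_range_succ, mul_add, ih]
    have h : 2 * sin β * cos (2 * α + 2 * N * β) =
        sin (2 * α + (2 * N + 1) * β) - sin (2 * α + (2 * N - 1) * β) := by
      have e1 : 2 * α + (2 * N + 1) * β = (2 * α + 2 * N * β) + β := by ring
      have e2 : 2 * α + (2 * N - 1) * β = (2 * α + 2 * N * β) - β := by ring
      rw [e1, e2, sin_add, sin_sub]; ring
    rw [h]
    push_cast
    ring_nf

lemma sum_cos_bound {β : ℝ} (hβ : 0 < |sin β|) (α : ℝ) (N : ℕ) :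
    ∑ p ∈ range N, cos (2 * α + 2 * p * β) ≤ 1 / |sin β| := by
  rw [le_div_iff₀ hβ]
  have h := sum_cos_identity α β N
  have h1 : |2 * sin β * ∑ p ∈ range N, cos (2 * α + 2 * p * β)| ≤ 2 := by
    rw [h]
    calc |sin (2 * α + (2 * N - 1) * β) - sin (2 * α - β)|
        ≤ |sin (2 * α + (2 * N - 1) * β)| + |sin (2 * α - β)| := abs_sub _ _
      _ ≤ 1 + 1 := add_le_add (abs_sin_le_one _) (abs_sin_le_one _)
      _ = 2 := by norm_num
  rw [abs_mul, abs_mul, abs_two] at h1
  have h2 : ∑ p ∈ range N, cos (2 * α + 2 * p * β) ≤ |∑ p ∈ range N, cos (2 * α + 2 * p * β)| :=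
    le_abs_self _
  nlinarith [abs_nonneg (sin β)]

/-- Over `N` steps of a rotation at distance `η` from an integer, `N a - 4 ∑ sin²` is at most
`a / η`. -/
lemma sum_sin_sq_bound {z : ℝ} {m : ℤ} {η a : ℝ} (hη : η = |z - m|) (hη0 : 0 < η)
    (hη1 : η ≤ 1 / 2) (ha0 : 0 ≤ a) (ha1 : a ≤ 1) (α : ℝ) (N : ℕ) :
    N * a - 4 * ∑ p ∈ range N, sin (α + p * (π * z)) ^ 2 ≤ a / η := by
  have hS0 : 0 ≤ ∑ p ∈ range N, sin (α + p * (π * z)) ^ 2 :=
    Finset.sum_nonneg fun p _ => sq_nonneg _
  have haη : 0 ≤ a / η := div_nonneg ha0 hη0.le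
  by_cases hN : (N : ℝ) < 1 / η
  · have h1 : (N : ℝ) * a ≤ 1 / η * a := mul_le_mul_of_nonneg_right hN.le ha0
    have h2 : 1 / η * a = a / η := by ring
    linarith
  · push Not at hN
    set β : ℝ := π * (z - m) with hβ
    have hs1 : ∀ p : ℕ, sin (α + p * (π * z)) ^ 2 = sin (α + p * β) ^ 2 := by
      intro p
      have e1 : α + p * (π * z) = (α + p * β) + ((p : ℤ) * m : ℤ) * π := by
        rw [hβ]; push_cast; ring
      rw [e1, Real.sin_add_int_mul_pi, mul_pow]
      have : ((-1 : ℝ) ^ ((p : ℤ) * m)) ^ 2 = 1 := by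
        rw [← zpow_natCast, ← zpow_mul, mul_comm _ ((2 : ℕ) : ℤ), zpow_mul]
        simp
      rw [this, one_mul]
    have hs2 : ∀ p : ℕ, sin (α + p * β) ^ 2 = 1 / 2 - cos (2 * α + 2 * p * β) / 2 := by
      intro p
      rw [Real.sin_sq_eq_half_sub]
      congr 3
      ring
    have hs3 : ∑ p ∈ range N, sin (α + p * (π * z)) ^ 2 =
        N / 2 - (∑ p ∈ range N, cos (2 * α + 2 * p * β)) / 2 := by
      rw [Finset.sum_congr rfl fun p _ => (hs1 p).trans (hs2 p), Finset.sum_sub_distrib,
        Finset.sum_div]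
      simp
      ring
    have hβabs : |β| = π * η := by
      rw [hβ, abs_mul, abs_of_pos pi_pos, hη]
    have hsin : 2 * η ≤ |sin β| := by
      have h1 : |β| ≤ π / 2 := by
        rw [hβabs]; nlinarith [pi_pos]
      have h2 := Real.mul_le_sin (x := |β|) (abs_nonneg _) h1
      have h3 : 2 / π * |β| = 2 * η := by
        rw [hβabs]; field_simp
      rw [h3] at h2
      have h4 : |sin β| = sin |β| := by
        rcases le_total 0 β with h | h
        · rw [abs_of_nonneg h, abs_of_nonneg]
          rw [abs_of_nonneg h] at h2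
          linarith
        · rw [abs_of_nonpos h, sin_neg, abs_of_nonpos]
          rw [abs_of_nonpos h, sin_neg] at h2
          linarith
      rw [h4]; exact h2
    have hsin0 : 0 < |sin β| := lt_of_lt_of_le (by positivity) hsin
    have hc := sum_cos_bound hsin0 α N
    have hc2 : 1 / |sin β| ≤ 1 / (2 * η) := one_div_le_one_div_of_le (by positivity) hsin
    have h5 : (1 : ℝ) / (2 * η) = 1 / η / 2 := by field_simp
    have hN0 : (0 : ℝ) ≤ N := Nat.cast_nonneg _
    have h6 : (N : ℝ) * a ≤ N := by nlinarith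
    rw [hs3]
    linarith

lemma kick_period {W : ℝ → ℝ} (hWc : Continuous W) (hWp : Function.Periodic W π)
    (f : ℝ → ℝ) (hf : Continuous f) (N : ℕ) :
    ∫ θ in (0 : ℝ)..(N * π), W θ * f θ =
      ∫ θ in (0 : ℝ)..π, W θ * ∑ p ∈ range N, f (θ + p * π) := by
  induction N with
  | zero => simp
  | succ N ih =>
    have hc : Continuous fun θ => W θ * f θ := hWc.mul hf
    have e1 : ((N + 1 : ℕ) : ℝ) * π = N * π + π := by push_cast; ring
    rw [e1, ← integral_add_adjacent_intervals (hc.intervalIntegrable 0 (N * π))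
      (hc.intervalIntegrable (N * π) (N * π + π)), ih]
    have e2 : ∫ θ in (N * π : ℝ)..(N * π + π), W θ * f θ =
        ∫ θ in (0 : ℝ)..π, W θ * f (θ + N * π) := by
      have h1 := intervalIntegral.integral_comp_add_right (fun θ => W θ * f θ) (N * π : ℝ)
        (a := 0) (b := π)
      rw [zero_add, add_comm π] at h1
      rw [← h1]
      apply intervalIntegral.integral_congr
      intro θ _
      simp only
      have : W (θ + N * π) = W θ := by
        have := hWp.nat_mul N
        exact this θ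
      rw [this]
    rw [e2, ← intervalIntegral.integral_add]
    · apply intervalIntegral.integral_congr
      intro θ _
      simp only
      rw [Finset.sum_range_succ]
      ring
    · apply Continuous.intervalIntegrable
      exact hWc.mul (continuous_finsetSum _ fun p _ => hf.comp (by fun_prop))
    · apply Continuous.intervalIntegrable
      exact hWc.mul (hf.comp (by fun_prop))

/-- The main estimate. -/
lemma kick_bound {W : ℝ → ℝ} (hWc : Continuous W) (hWp : Function.Periodic W π)
    (hW0 : ∀ θ, 0 ≤ W θ) (hW1 : ∀ θ, W θ ≤ 1)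
    {z : ℝ} {m : ℤ} {η a : ℝ} (hη : η = |z - m|) (hη0 : 0 < η)
    (hη1 : η ≤ 1 / 2) (ha0 : 0 ≤ a) (ha1 : a ≤ 1) (ψ : ℝ) {τ : ℝ} (hτ : 0 ≤ τ) :
    ∫ θ in (0 : ℝ)..τ, W θ * (a - 4 * sin (z * θ + ψ) ^ 2) ≤ π * (a / η) + π * a := by
  set f : ℝ → ℝ := fun θ => a - 4 * sin (z * θ + ψ) ^ 2 with hf
  have hfc : Continuous f := by rw [hf]; fun_prop
  have hc : Continuous fun θ => W θ * f θ := hWc.mul hfc
  set N : ℕ := ⌊τ / π⌋₊ with hN
  have hN1 : (N : ℝ) * π ≤ τ := by
    have := Nat.floor_le (div_nonneg hτ pi_pos.le)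
    rw [← hN, le_div_iff₀ pi_pos] at this
    exact this
  have hN2 : τ < N * π + π := by
    have := Nat.lt_floor_add_one (τ / π)
    rw [← hN, div_lt_iff₀ pi_pos] at this
    linarith
  have e1 : ∫ θ in (0 : ℝ)..τ, W θ * f θ =
      (∫ θ in (0 : ℝ)..(N * π), W θ * f θ) + ∫ θ in (N * π : ℝ)..τ, W θ * f θ :=
    (integral_add_adjacent_intervals (hc.intervalIntegrable _ _) (hc.intervalIntegrable _ _)).symm
  have haη : 0 ≤ a / η := div_nonneg ha0 hη0.le
  have h1 : ∫ θ in (0 : ℝ)..(N * π), W θ * f θ ≤ π * (a / η) := by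
    rw [kick_period hWc hWp f hfc N]
    have h2 : ∀ θ ∈ Set.Icc (0 : ℝ) π, W θ * ∑ p ∈ range N, f (θ + p * π) ≤ a / η := by
      intro θ _
      have h3 : ∑ p ∈ range N, f (θ + p * π) =
          N * a - 4 * ∑ p ∈ range N, sin ((z * θ + ψ) + p * (π * z)) ^ 2 := by
        rw [hf, Finset.sum_sub_distrib, Finset.mul_sum]
        simp only [Finset.sum_const, Finset.card_range, nsmul_eq_mul]
        congr 1
        apply Finset.sum_congr rfl
        intro p _
        congr 3
        ring
      have h4 := sum_sin_sq_bound hη hη0 hη1 ha0 ha1 (z * θ + ψ) N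
      rw [← h3] at h4
      calc W θ * ∑ p ∈ range N, f (θ + p * π) ≤ W θ * (a / η) :=
            mul_le_mul_of_nonneg_left h4 (hW0 θ)
        _ ≤ 1 * (a / η) := mul_le_mul_of_nonneg_right (hW1 θ) haη
        _ = a / η := one_mul _
    have h5 : ∫ θ in (0 : ℝ)..π, W θ * ∑ p ∈ range N, f (θ + p * π) ≤
        ∫ _θ in (0 : ℝ)..π, a / η := by
      apply intervalIntegral.integral_mono_on pi_pos.le
      · apply Continuous.intervalIntegrable
        exact hWc.mul (continuous_finsetSum _ fun p _ => hfc.comp (by fun_prop))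
      · exact intervalIntegrable_const
      · exact h2
    rw [intervalIntegral.integral_const, sub_zero, smul_eq_mul] at h5
    exact h5
  have h6 : ∫ θ in (N * π : ℝ)..τ, W θ * f θ ≤ π * a := by
    have h7 : ∫ θ in (N * π : ℝ)..τ, W θ * f θ ≤ ∫ _θ in (N * π : ℝ)..τ, a := by
      apply intervalIntegral.integral_mono_on hN1 (hc.intervalIntegrable _ _)
        intervalIntegrable_const
      intro θ _
      have h8 : f θ ≤ a := by
        rw [hf]; simp only; nlinarith [sq_nonneg (sin (z * θ + ψ))]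
      calc W θ * f θ ≤ W θ * a := mul_le_mul_of_nonneg_left h8 (hW0 θ)
        _ ≤ 1 * a := mul_le_mul_of_nonneg_right (hW1 θ) ha0
        _ = a := one_mul _
    rw [intervalIntegral.integral_const, smul_eq_mul] at h7
    have h9 : (τ - N * π) * a ≤ π * a := mul_le_mul_of_nonneg_right (by linarith) ha0
    linarith
  rw [e1]
  linarith

end Pool.Agent.Arnold
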