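import Pool.Agent.Arnold.Flow
import Pool.Agent.Arnold.Kick

/-!
# Bounded growth when the polynomial has no integer zero
-/

open Finset Set

namespace Pool.Agent.Arnold

variable {k : ℕ} {g : ℕ} {Hf : (V k → ℝ) → ℝ}

/-- logarithmic decay rate with respect to the base angle -/
noncomputable def delta (g : ℕ) (Hf : (V k → ℝ) → ℝ) (x₀ : V k → ℝ) (θ : ℝ) : ℝ :=
  Dfun g (Hf (rotst x₀ θ)) (rotst x₀ θ) / om g (rotst x₀ θ)

/-- growth exponent as a function of the base angle -/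
noncomputable def J (g : ℕ) (Hf : (V k → ℝ) → ℝ) (x₀ : V k → ℝ) (τ : ℝ) : ℝ :=
  ∫ θ in (0 : ℝ)..τ, - delta g Hf x₀ θ

lemma nrm_nonneg (x : V k → ℝ) : 0 ≤ nrm x := Finset.sum_nonneg fun _ _ => sq_nonneg _

lemma sq_le_nrm (x : V k → ℝ) (i : V k) : x i ^ 2 ≤ nrm x :=
  Finset.single_le_sum (f := fun i => x i ^ 2) (fun _ _ => sq_nonneg _) (Finset.mem_univ i)

lemma nrm_pos_of {x : V k → ℝ} {i : V k} (h : x i ≠ 0) : 0 < nrm x :=
  lt_of_lt_of_le (by positivity) (sq_le_nrm x i)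

lemma hfun_rotst_pos {x₀ : V k → ℝ} (hB : x₀ vB ≠ 0) (θ : ℝ) : 0 < hfun (rotst x₀ θ) := by
  unfold hfun
  have : rotst x₀ θ vB = x₀ vB := rfl
  rw [this]
  positivity

lemma om_rotst_pos {x₀ : V k → ℝ} (hY : x₀ vY ≠ 0) (hB : x₀ vB ≠ 0) (θ : ℝ) :
    0 < om g (rotst x₀ θ) := by
  unfold om
  have h1 := hfun_rotst_pos hB θ
  have h2 : rotst x₀ θ vY = x₀ vY := rfl
  have h3 : 0 < nrm (rotst x₀ θ) := by rw [nrm_rotst]; exact nrm_pos_of hY
  rw [h2]
  positivity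

lemma continuous_delta (hH : GoodH g Hf) {x₀ : V k → ℝ} (hY : x₀ vY ≠ 0) (hB : x₀ vB ≠ 0) :
    Continuous (delta g Hf x₀) := by
  unfold delta
  exact ((continuous_Dfun hH).comp (continuous_rotst x₀)).div
    ((continuous_om g).comp (continuous_rotst x₀)) fun θ => (om_rotst_pos hY hB θ).ne'

lemma hasDeriv_J (hH : GoodH g Hf) {x₀ : V k → ℝ} (hY : x₀ vY ≠ 0) (hB : x₀ vB ≠ 0) (τ : ℝ) :
    HasDerivAt (J g Hf x₀) (- delta g Hf x₀ τ) τ := by
  have hc := (continuous_delta hH hY hB).neg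
  exact intervalIntegral.integral_hasDerivAt_right (hc.intervalIntegrable 0 τ)
    (hc.stronglyMeasurableAtFilter _ _) hc.continuousAt

namespace IsPath

variable {m : ℝ → ℝ} {x : ℝ → V k → ℝ}

lemma Dfun_path (h : IsPath g Hf m x) (hH : GoodH g Hf) (hY : x 0 vY ≠ 0) (hB : x 0 vB ≠ 0)
    {t : ℝ} (ht : 0 ≤ t) :
    Dfun g (Hf (x t)) (x t) = delta g Hf (x 0) (Om g m x t) * om g (x t) := by
  have hrep := h.rep hH hY t ht
  set l := Real.exp (-(Lam g Hf m x t)) with hl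
  set y := rotst (x 0) (Om g m x t) with hy
  have h1 : Hf (x t) = l ^ (g + 1) * Hf y := by
    rw [hrep]; exact hH.hom l y
  have h2 : Dfun g (Hf (x t)) (x t) = l ^ (2 * k + 2 * g + 6) * Dfun g (Hf y) y := by
    rw [h1, ← Dfun_smul, hrep]
  have h3 : om g (x t) = l ^ (2 * k + 2 * g + 6) * om g y := by
    rw [← om_smul, hrep]
  rw [h2, h3]
  unfold delta
  rw [← hy]
  have h4 : om g y ≠ 0 := (om_rotst_pos hY hB _).ne'
  field_simp

lemma lam_eq (h : IsPath g Hf m x) (hH : GoodH g Hf) (hY : x 0 vY ≠ 0) (hB : x 0 vB ≠ 0) :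
    ∀ t, 0 ≤ t → -(Lam g Hf m x t) = J g Hf (x 0) (Om g m x t) - Mb g m x t := by
  intro t ht
  have h1 := const_of_deriv_zero
    (f := fun t => Lam g Hf m x t + J g Hf (x 0) (Om g m x t) - Mb g m x t) (fun t ht => by
      have h2 := (hasDeriv_J hH hY hB (Om g m x t)).comp_hasDerivWithinAt t (h.Om_deriv t ht)
      have h3 := ((h.Lam_deriv hH t ht).add h2).sub (h.Mb_deriv t ht)
      refine h3.congr_deriv ?_
      unfold dd Dtot
      rw [h.Dfun_path hH hY hB ht]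
      ring) t ht
  have h4 : J g Hf (x 0) 0 = 0 := by simp [J]
  have h5 : Om g m x 0 = 0 := by simp [Om, prim_zero]
  simp only [h5, h4] at h1
  have h6 : Lam g Hf m x 0 = 0 := by simp [Lam, prim_zero]
  have h7 : Mb g m x 0 = 0 := by simp [Mb, prim_zero]
  rw [h6, h7] at h1
  linarith

/-- if `Y = 0` or `B = 0`, there is only background damping -/
lemma lam_eq_of_zero (h : IsPath g Hf m x) (hH : GoodH g Hf) (h0 : x 0 vY = 0 ∨ x 0 vB = 0) :
    ∀ t, 0 ≤ t → Lam g Hf m x t = Mb g m x t := by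
  intro t ht
  have hYt : ∀ t, 0 ≤ t → x t vY = Real.exp (-(Lam g Hf m x t)) * x 0 vY :=
    h.scalar_path hH fun _ => rfl
  have hBt : ∀ t, 0 ≤ t → x t vB = Real.exp (-(Lam g Hf m x t)) * x 0 vB :=
    h.scalar_path hH fun _ => rfl
  have h1 := const_of_deriv_zero
    (f := fun t => Lam g Hf m x t - Mb g m x t) (fun t ht => by
      have h3 := ((h.Lam_deriv hH t ht)).sub (h.Mb_deriv t ht)
      refine h3.congr_deriv ?_
      unfold dd Dtot Dfun
      have : x t vY ^ 2 * x t vB ^ 2 = 0 := by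
        rcases h0 with h0 | h0
        · rw [hYt t ht, h0]; ring
        · rw [hBt t ht, h0]; ring
      rw [this]
      ring) t ht
  have h6 : Lam g Hf m x 0 = 0 := by simp [Lam, prim_zero]
  have h7 : Mb g m x 0 = 0 := by simp [Mb, prim_zero]
  simp only [h6, h7] at h1
  linarith

end IsPath

/-- pulse weight -/
noncomputable def Wt (x₀ : V k → ℝ) (θ : ℝ) : ℝ := x₀ vB ^ 2 / hfun (rotst x₀ θ)

lemma continuous_Wt {x₀ : V k → ℝ} (hB : x₀ vB ≠ 0) : Continuous (Wt x₀) := by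
  unfold Wt
  exact continuous_const.div (continuous_hfun.comp (continuous_rotst x₀))
    fun θ => (hfun_rotst_pos hB θ).ne'

lemma periodic_Wt (x₀ : V k → ℝ) : Function.Periodic (Wt x₀) Real.pi := by
  intro θ
  unfold Wt hfun
  have h1 : rotst x₀ (θ + Real.pi) vB = rotst x₀ θ vB := rfl
  have h2 : rotst x₀ (θ + Real.pi) vs = - rotst x₀ θ vs := by
    simp only [rotst, Real.sin_add_pi, Real.cos_add_pi]; ring
  rw [h1, h2]
  ring

lemma Wt_nonneg (x₀ : V k → ℝ) (θ : ℝ) : 0 ≤ Wt x₀ θ := by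
  unfold Wt hfun
  positivity

lemma Wt_le_one (x₀ : V k → ℝ) (θ : ℝ) : Wt x₀ θ ≤ 1 := by
  unfold Wt hfun
  have h1 : rotst x₀ θ vB = x₀ vB := rfl
  rw [h1]
  apply div_le_one_of_le₀ _ (by positivity)
  have := sq_nonneg (rotst x₀ θ vs)
  linarith

lemma Hf_rotst (hH : GoodH g Hf) (x₀ : V k → ℝ) (θ : ℝ) : Hf (rotst x₀ θ) = Hf x₀ :=
  hH.dep _ _ rfl fun _ => rfl

lemma neg_delta_eq (hH : GoodH g Hf) {x₀ : V k → ℝ} (hY : x₀ vY ≠ 0) (hB : x₀ vB ≠ 0) (θ : ℝ) :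
    - delta g Hf x₀ θ = Wt x₀ θ * ((Efun x₀ * (x₀ vY ^ (2 * (g + 1)) - 4 * Hf x₀ ^ 2) -
      4 * Vfun (rotst x₀ θ) * nrm x₀ ^ (k + g)) / nrm x₀ ^ (k + g + 1)) := by
  unfold delta Dfun om Wt
  have h1 : rotst x₀ θ vB = x₀ vB := rfl
  have h2 : rotst x₀ θ vY = x₀ vY := rfl
  rw [Hf_rotst hH, nrm_rotst, Efun_rotst, h1, h2]
  have h3 := (hfun_rotst_pos hB θ).ne'
  have h4 := (nrm_pos_of hY).ne'
  field_simp
  ring

lemma polar (a b : ℝ) : ∃ r ψ : ℝ, r ^ 2 = a ^ 2 + b ^ 2 ∧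
    ∀ t, a * Real.sin t + b * Real.cos t = r * Real.sin (t + ψ) := by
  refine ⟨‖(⟨a, b⟩ : ℂ)‖, Complex.arg ⟨a, b⟩, ?_, fun t => ?_⟩
  · rw [← Complex.normSq_eq_norm_sq, Complex.normSq_mk]; ring
  · have h1 := Complex.norm_mul_cos_arg (⟨a, b⟩ : ℂ)
    have h2 := Complex.norm_mul_sin_arg (⟨a, b⟩ : ℂ)
    simp only at h1 h2
    rw [Real.sin_add]
    calc a * Real.sin t + b * Real.cos t
        = (‖(⟨a, b⟩ : ℂ)‖ * Real.cos (Complex.arg ⟨a, b⟩)) * Real.sin t +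
          (‖(⟨a, b⟩ : ℂ)‖ * Real.sin (Complex.arg ⟨a, b⟩)) * Real.cos t := by rw [h1, h2]
      _ = _ := by ring

lemma Efun_nonneg (x : V k → ℝ) : 0 ≤ Efun x :=
  Finset.prod_nonneg fun _ _ => by positivity

lemma Vfun_nonneg (x : V k → ℝ) : 0 ≤ Vfun x :=
  Finset.sum_nonneg fun _ _ => sq_nonneg _

lemma radius_le_nrm (x : V k → ℝ) (j : Fin k) : x (vu j) ^ 2 + x (vv j) ^ 2 ≤ nrm x := by
  have h := Finset.add_le_sum (f := fun i => x i ^ 2) (s := Finset.univ) (i := vu j) (j := vv j)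
    (fun _ _ => sq_nonneg _) (Finset.mem_univ _) (Finset.mem_univ _) (by simp [vu, vv])
  exact h

lemma Efun_mul_nrm_le (x : V k → ℝ) (j : Fin k) :
    Efun x * nrm x ≤ (x (vu j) ^ 2 + x (vv j) ^ 2) * nrm x ^ k := by
  unfold Efun
  rw [← Finset.mul_prod_erase _ _ (Finset.mem_univ j)]
  have h1 : ∏ i ∈ Finset.univ.erase j, (x (vu i) ^ 2 + x (vv i) ^ 2) ≤ nrm x ^ (k - 1) := by
    calc ∏ i ∈ Finset.univ.erase j, (x (vu i) ^ 2 + x (vv i) ^ 2)
        ≤ ∏ _i ∈ Finset.univ.erase j, nrm x :=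
          Finset.prod_le_prod (fun _ _ => by positivity) fun i _ => radius_le_nrm x i
      _ = nrm x ^ (k - 1) := by
          rw [Finset.prod_const, Finset.card_erase_of_mem (Finset.mem_univ j), Finset.card_univ,
            Fintype.card_fin]
  have hk : k - 1 + 1 = k := Nat.sub_add_cancel (Nat.succ_le_of_lt (lt_of_le_of_lt
    (Nat.zero_le _) j.2))
  have h2 : nrm x ^ k = nrm x ^ (k - 1) * nrm x := by rw [← pow_succ, hk]
  rw [h2, mul_assoc, ← mul_assoc _ (nrm x ^ (k - 1))]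
  have h3 : 0 ≤ x (vu j) ^ 2 + x (vv j) ^ 2 := by positivity
  calc (x (vu j) ^ 2 + x (vv j) ^ 2) *
        ((∏ i ∈ Finset.univ.erase j, (x (vu i) ^ 2 + x (vv i) ^ 2)) * nrm x)
      ≤ (x (vu j) ^ 2 + x (vv j) ^ 2) * (nrm x ^ (k - 1) * nrm x) :=
        mul_le_mul_of_nonneg_left (mul_le_mul_of_nonneg_right h1 (nrm_nonneg x)) h3
    _ = _ := by ring

/-- quantitative form of `no integer zero` -/
def NoZero (g : ℕ) (Hf : (V k → ℝ) → ℝ) (C : ℝ) : Prop :=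
  0 ≤ C ∧ ∀ x : V k → ℝ, x vY ≠ 0 → x vY ^ (2 * (g + 1)) ≤ 4 * Hf x ^ 2 ∨
    ∃ (j : Fin k) (n : ℤ), 0 < |x (vX j) / x vY - n| ∧ |x (vX j) / x vY - n| ≤ 1 / 2 ∧
      (x vY ^ 2) ^ (g + 1) ≤ C * |x (vX j) / x vY - n| * nrm x ^ (g + 1)

lemma J_le (hH : GoodH g Hf) {C : ℝ} (hN : NoZero g Hf C) {x₀ : V k → ℝ}
    (hY : x₀ vY ≠ 0) (hB : x₀ vB ≠ 0) {τ : ℝ} (hτ : 0 ≤ τ) :
    J g Hf x₀ τ ≤ Real.pi * (C + 1) := by
  obtain ⟨hC, hN⟩ := hN
  have hpi := Real.pi_pos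
  have hn : 0 < nrm x₀ := nrm_pos_of hY
  rcases hN x₀ hY with h | ⟨j, n, hη0, hη1, hη⟩
  · have h1 : J g Hf x₀ τ ≤ 0 := by
      unfold J
      rw [← neg_nonneg, ← intervalIntegral.integral_neg]
      apply intervalIntegral.integral_nonneg hτ
      intro θ _
      rw [neg_delta_eq hH hY hB, neg_nonneg]
      apply mul_nonpos_of_nonneg_of_nonpos (Wt_nonneg _ _)
      apply div_nonpos_of_nonpos_of_nonneg _ (by positivity)
      have h2 := mul_nonneg (Efun_nonneg x₀) (sub_nonneg.2 h)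
      have h3 := Vfun_nonneg (rotst x₀ θ)
      have h4 : 0 ≤ 4 * Vfun (rotst x₀ θ) * nrm x₀ ^ (k + g) := by positivity
      nlinarith
    have : 0 ≤ Real.pi * (C + 1) := by positivity
    linarith
  · set η := |x₀ (vX j) / x₀ vY - n| with hηdef
    set z := x₀ (vX j) / x₀ vY with hz
    obtain ⟨r, ψ, hr, hpol⟩ := polar (x₀ (vu j)) (x₀ (vv j))
    set a := (x₀ vY ^ 2 / nrm x₀) ^ (g + 1) with ha
    have ha0 : 0 ≤ a := by positivity
    have ha1 : a ≤ 1 := by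
      apply pow_le_one₀ (by positivity)
      rw [div_le_one hn]
      exact sq_le_nrm x₀ vY
    have haη : a ≤ C * η := by
      rw [ha, div_pow, div_le_iff₀ (by positivity)]
      exact hη
    have hkick := kick_bound (continuous_Wt hB) (periodic_Wt x₀) (Wt_nonneg x₀) (Wt_le_one x₀)
      (z := z) (m := n) (η := η) (a := a) hηdef hη0 hη1 ha0 ha1 ψ hτ
    have hrn : r ^ 2 / nrm x₀ ≤ 1 := by
      rw [div_le_one hn, hr]; exact radius_le_nrm x₀ j
    have hrn0 : 0 ≤ r ^ 2 / nrm x₀ := by positivity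
    have hpt : ∀ θ, - delta g Hf x₀ θ ≤
        r ^ 2 / nrm x₀ * (Wt x₀ θ * (a - 4 * Real.sin (z * θ + ψ) ^ 2)) := by
      intro θ
      rw [neg_delta_eq hH hY hB]
      have h1 : r ^ 2 * Real.sin (z * θ + ψ) ^ 2 ≤ Vfun (rotst x₀ θ) := by
        have h2 : rotst x₀ θ (vv j) = r * Real.sin (z * θ + ψ) := by
          rw [← hpol]
          rfl
        have h3 : rotst x₀ θ (vv j) ^ 2 ≤ Vfun (rotst x₀ θ) :=
          Finset.single_le_sum (f := fun j => rotst x₀ θ (vv j) ^ 2) (fun _ _ => sq_nonneg _)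
            (Finset.mem_univ j)
        rw [h2, mul_pow] at h3
        exact h3
      have h4 : Efun x₀ * (x₀ vY ^ (2 * (g + 1)) - 4 * Hf x₀ ^ 2) ≤
          r ^ 2 * a * nrm x₀ ^ (k + g) := by
        have h5 : Efun x₀ * (x₀ vY ^ (2 * (g + 1)) - 4 * Hf x₀ ^ 2) ≤
            Efun x₀ * (x₀ vY ^ 2) ^ (g + 1) := by
          rw [← pow_mul]
          apply mul_le_mul_of_nonneg_left _ (Efun_nonneg x₀)
          nlinarith [sq_nonneg (Hf x₀)]
        have h6 := Efun_mul_nrm_le x₀ j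
        rw [← hr] at h6
        have h7 : Efun x₀ ≤ r ^ 2 * nrm x₀ ^ k / nrm x₀ := by
          rw [le_div_iff₀ hn]; exact h6
        have h8 : Efun x₀ * (x₀ vY ^ 2) ^ (g + 1) ≤
            r ^ 2 * nrm x₀ ^ k / nrm x₀ * (x₀ vY ^ 2) ^ (g + 1) :=
          mul_le_mul_of_nonneg_right h7 (by positivity)
        have h9 : r ^ 2 * nrm x₀ ^ k / nrm x₀ * (x₀ vY ^ 2) ^ (g + 1) =
            r ^ 2 * a * nrm x₀ ^ (k + g) := by
          rw [ha, div_pow]
          field_simp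
          ring
        linarith
      have h10 : (Efun x₀ * (x₀ vY ^ (2 * (g + 1)) - 4 * Hf x₀ ^ 2) -
          4 * Vfun (rotst x₀ θ) * nrm x₀ ^ (k + g)) / nrm x₀ ^ (k + g + 1) ≤
          r ^ 2 / nrm x₀ * (a - 4 * Real.sin (z * θ + ψ) ^ 2) := by
        rw [div_le_iff₀ (by positivity)]
        have h11 : r ^ 2 / nrm x₀ * (a - 4 * Real.sin (z * θ + ψ) ^ 2) * nrm x₀ ^ (k + g + 1) =
            r ^ 2 * a * nrm x₀ ^ (k + g) -
              4 * (r ^ 2 * Real.sin (z * θ + ψ) ^ 2) * nrm x₀ ^ (k + g) := by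
          field_simp
          ring
        rw [h11]
        have h12 : 4 * (r ^ 2 * Real.sin (z * θ + ψ) ^ 2) * nrm x₀ ^ (k + g) ≤
            4 * Vfun (rotst x₀ θ) * nrm x₀ ^ (k + g) := by
          apply mul_le_mul_of_nonneg_right _ (by positivity)
          linarith
        linarith
      calc Wt x₀ θ * ((Efun x₀ * (x₀ vY ^ (2 * (g + 1)) - 4 * Hf x₀ ^ 2) -
          4 * Vfun (rotst x₀ θ) * nrm x₀ ^ (k + g)) / nrm x₀ ^ (k + g + 1))
          ≤ Wt x₀ θ * (r ^ 2 / nrm x₀ * (a - 4 * Real.sin (z * θ + ψ) ^ 2)) :=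
            mul_le_mul_of_nonneg_left h10 (Wt_nonneg _ _)
        _ = _ := by ring
    have hWc := continuous_Wt hB
    have h20 : J g Hf x₀ τ ≤ ∫ θ in (0 : ℝ)..τ, r ^ 2 / nrm x₀ *
        (Wt x₀ θ * (a - 4 * Real.sin (z * θ + ψ) ^ 2)) := by
      unfold J
      apply intervalIntegral.integral_mono_on hτ
      · exact (continuous_delta hH hY hB).neg.intervalIntegrable _ _
      · apply Continuous.intervalIntegrable
        fun_prop
      · intro θ _; exact hpt θ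
    rw [intervalIntegral.integral_const_mul] at h20
    have hη' : a / η ≤ C := by rw [div_le_iff₀ hη0]; exact haη
    have h21 : ∫ θ in (0 : ℝ)..τ, Wt x₀ θ * (a - 4 * Real.sin (z * θ + ψ) ^ 2) ≤
        Real.pi * (C + 1) := by
      have h22 : Real.pi * (a / η) ≤ Real.pi * C := mul_le_mul_of_nonneg_left hη' hpi.le
      have h23 : Real.pi * a ≤ Real.pi * 1 := mul_le_mul_of_nonneg_left ha1 hpi.le
      linarith
    have h24 : 0 ≤ Real.pi * (C + 1) := by positivity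
    calc J g Hf x₀ τ ≤ _ := h20
      _ ≤ r ^ 2 / nrm x₀ * (Real.pi * (C + 1)) := mul_le_mul_of_nonneg_left h21 hrn0
      _ ≤ 1 * (Real.pi * (C + 1)) := mul_le_mul_of_nonneg_right hrn h24
      _ = _ := one_mul _

/-- The fundamental bound. -/
theorem lam_bound (hH : GoodH g Hf) {C : ℝ} (hN : NoZero g Hf C) {m : ℝ → ℝ}
    {x : ℝ → V k → ℝ} (h : IsPath g Hf m x) {t : ℝ} (ht : 0 ≤ t) :
    -(IsPath.Lam g Hf m x t) ≤ Real.pi * (C + 1) - IsPath.Mb g m x t := by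
  have hC := hN.1
  have hpi := Real.pi_pos
  by_cases h0 : x 0 vY = 0 ∨ x 0 vB = 0
  · rw [h.lam_eq_of_zero hH h0 t ht]
    have : 0 ≤ Real.pi * (C + 1) := by positivity
    linarith
  · push Not at h0
    rw [h.lam_eq hH h0.1 h0.2 t ht]
    have := J_le hH hN h0.1 h0.2 (h.Om_nonneg ht)
    linarith

end Pool.Agent.Arnold
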