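import Pool.Agent.Arnold.Poly

/-!
# The coefficients of the vector field depend computably on the parameter
-/

open Finset

namespace Pool.Agent.Arnold

/-! ### Primitive recursive integer valued functions -/

lemma encode_int_sub (u v : ℕ) : Encodable.encode ((u : ℤ) - v) =
    if v ≤ u then 2 * (u - v) else 2 * (v - u - 1) + 1 := by
  by_cases h : v ≤ u
  · rw [if_pos h]
    obtain ⟨w, rfl⟩ := Nat.exists_eq_add_of_le h
    have h1 : ((v + w : ℕ) : ℤ) - v = Int.ofNat w := by simp
    rw [h1, Nat.add_sub_cancel_left]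
    rfl
  · rw [if_neg h]
    obtain ⟨w, rfl⟩ := Nat.exists_eq_add_of_lt (not_le.1 h)
    have h1 : (u : ℤ) - ((u + w + 1 : ℕ) : ℤ) = Int.negSucc w := by
      rw [Int.negSucc_eq]; push_cast; ring
    have h2 : u + w + 1 - u - 1 = w := by omega
    rw [h1, h2]
    rfl

lemma primrec_int_sub {u v : ℕ → ℕ} (hu : Primrec u) (hv : Primrec v) :
    Primrec (fun a => ((u a : ℤ) - (v a : ℤ))) := by
  rw [← Primrec.encode_iff]
  have h1 : (fun a => Encodable.encode ((u a : ℤ) - (v a : ℤ))) = fun a =>
      if v a ≤ u a then 2 * (u a - v a) else 2 * (v a - u a - 1) + 1 := by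
    funext a
    exact encode_int_sub _ _
  rw [h1]
  apply Primrec.ite (Primrec.nat_le.comp hv hu)
  · exact Primrec.nat_mul.comp (Primrec.const 2) (Primrec.nat_sub.comp hu hv)
  · exact Primrec.succ.comp (Primrec.nat_mul.comp (Primrec.const 2)
      (Primrec.nat_sub.comp (Primrec.nat_sub.comp hv hu) (Primrec.const 1)))

lemma primrec_pow_const (m : ℕ) : Primrec (fun a : ℕ => a ^ m) := by
  induction m with
  | zero => simpa using Primrec.const 1
  | succ m ih =>
    have : (fun a : ℕ => a ^ (m + 1)) = fun a => a ^ m * a := by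
      funext a; exact pow_succ a m
    rw [this]
    exact Primrec.nat_mul.comp ih Primrec.id

lemma poly_split (q : Polynomial ℤ) : ∃ u v : ℕ → ℕ, Primrec u ∧ Primrec v ∧
    ∀ a : ℕ, q.eval (a : ℤ) = (u a : ℤ) - (v a : ℤ) := by
  induction q using Polynomial.induction_on' with
  | add p q hp hq =>
    obtain ⟨u1, v1, hu1, hv1, h1⟩ := hp
    obtain ⟨u2, v2, hu2, hv2, h2⟩ := hq
    refine ⟨fun a => u1 a + u2 a, fun a => v1 a + v2 a, Primrec.nat_add.comp hu1 hu2,
      Primrec.nat_add.comp hv1 hv2, fun a => ?_⟩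
    rw [Polynomial.eval_add, h1, h2]
    push_cast
    ring
  | monomial m c =>
    refine ⟨fun a => c.toNat * a ^ m, fun a => (-c).toNat * a ^ m,
      Primrec.nat_mul.comp (Primrec.const _) (primrec_pow_const m),
      Primrec.nat_mul.comp (Primrec.const _) (primrec_pow_const m), fun a => ?_⟩
    rw [Polynomial.eval_monomial]
    push_cast
    rw [← sub_mul]
    congr 1
    omega

lemma primrec_poly_eval (q : Polynomial ℤ) : Primrec (fun a : ℕ => q.eval (a : ℤ)) := by
  obtain ⟨u, v, hu, hv, h⟩ := poly_split q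
  have h1 : (fun a : ℕ => q.eval (a : ℤ)) = fun a => (u a : ℤ) - (v a : ℤ) := funext h
  rw [h1]
  exact primrec_int_sub hu hv

lemma primrec_list_map {α β : Type*} [Primcodable β] (l : List α) {h : α → ℕ → β}
    (hh : ∀ x, Primrec (h x)) : Primrec (fun a : ℕ => l.map fun x => h x a) := by
  induction l with
  | nil => exact Primrec.const []
  | cons x l ih => exact Primrec.list_cons.comp (hh x) ih

/-! ### Coefficient lists -/

lemma mem_exponents {n d : ℕ} {e : Fin n → ℕ} : e ∈ exponents n d ↔ ∑ i, e i ≤ d := by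
  unfold exponents
  rw [List.mem_flatMap]
  constructor
  · rintro ⟨t, ht, he⟩
    rw [List.Nat.mem_antidiagonalTuple] at he
    rw [he]
    exact Nat.lt_succ_iff.1 (List.mem_range.1 ht)
  · intro h
    exact ⟨∑ i, e i, List.mem_range.2 (Nat.lt_succ_iff.2 h), List.Nat.mem_antidiagonalTuple.2 rfl⟩

lemma nodup_exponents (n d : ℕ) : (exponents n d).Nodup := by
  unfold exponents
  rw [List.nodup_flatMap]
  refine ⟨fun t _ => List.Nat.nodup_antidiagonalTuple n t, ?_⟩
  refine (List.nodup_range).imp ?_
  intro s t hst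
  show List.Disjoint _ _
  intro e h1 h2
  rw [List.Nat.mem_antidiagonalTuple] at h1 h2
  exact hst (h1.symm.trans h2)

/-- a polynomial of degree at most `d` is the sum of its monomials -/
lemma sum_exponents {n d : ℕ} (p : MvPolynomial (Fin n) ℚ) (hp : p.totalDegree ≤ d) :
    ((exponents n d).map fun e => MvPolynomial.monomial (Finsupp.equivFunOnFinite.symm e)
      (p.coeff (Finsupp.equivFunOnFinite.symm e))).sum = p := by
  rw [← List.sum_toFinset _ (nodup_exponents n d)]
  ext m
  rw [MvPolynomial.coeff_sum]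
  simp only [MvPolynomial.coeff_monomial]
  have h1 : ∀ e : Fin n → ℕ, (Finsupp.equivFunOnFinite.symm e = m) ↔ (e = fun i => m i) := by
    intro e
    rw [Equiv.symm_apply_eq]
    rfl
  simp only [h1]
  rw [Finset.sum_ite_eq' (exponents n d).toFinset (fun i => m i)
    (fun e => p.coeff (Finsupp.equivFunOnFinite.symm e))]
  have h2 : Finsupp.equivFunOnFinite.symm (fun i => m i) = m := by
    rw [Equiv.symm_apply_eq]; rfl
  rw [h2]
  split_ifs with h
  · rfl
  · rw [List.mem_toFinset, mem_exponents] at h
    symm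
    rw [← MvPolynomial.notMem_support_iff]
    intro hm
    apply h
    refine le_trans (le_of_eq ?_) ((MvPolynomial.le_totalDegree hm).trans hp)
    rw [Finsupp.sum_fintype _ _ (fun _ => rfl)]

/-- the input with given numerators -/
def mkInput (n d : ℕ) (w : Fin n → (Fin n → ℕ) → ℤ) : Input :=
  (n, (places n d).map fun p => (w p.1 p.2, 0))

lemma field_mkInput {n d : ℕ} (w : Fin n → (Fin n → ℕ) → ℤ) (f : PolyField n)
    (hd : ∀ i, (f i).totalDegree ≤ d)
    (hw : ∀ i e, (f i).coeff (Finsupp.equivFunOnFinite.symm e) = (w i e : ℚ)) :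
    Input.field d (mkInput n d w) = f := by
  refine funext fun (i : Fin n) => ?_
  show (((places n d).zip ((places n d).map fun p => (w p.1 p.2, 0))).map
    (fun t : (Fin n × (Fin n → ℕ)) × (ℤ × ℕ) => if t.1.1 = i then
      MvPolynomial.monomial (Finsupp.equivFunOnFinite.symm t.1.2) ((t.2.1 : ℚ) / (t.2.2 + 1))
    else 0)).sum = f i
  have h1 : (places n d).zip ((places n d).map fun p => (w p.1 p.2, (0 : ℕ))) =
      (places n d).map fun p => (p, (w p.1 p.2, (0 : ℕ))) := by
    have h0 := List.zip_map' (f := fun p : Fin n × (Fin n → ℕ) => p)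
      (g := fun p : Fin n × (Fin n → ℕ) => (w p.1 p.2, (0 : ℕ))) (l := places n d)
    rwa [List.map_id'] at h0
  rw [h1, List.map_map]
  have h2 : ((fun t : (Fin n × (Fin n → ℕ)) × (ℤ × ℕ) => if t.1.1 = i then
      MvPolynomial.monomial (Finsupp.equivFunOnFinite.symm t.1.2) ((t.2.1 : ℚ) / (t.2.2 + 1))
    else (0 : MvPolynomial (Fin n) ℚ)) ∘ fun p => (p, (w p.1 p.2, (0 : ℕ)))) = fun p =>
      if p.1 = i then MvPolynomial.monomial (Finsupp.equivFunOnFinite.symm p.2)
        ((f p.1).coeff (Finsupp.equivFunOnFinite.symm p.2)) else 0 := by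
    funext p
    simp only [Function.comp]
    rw [hw]
    simp
  rw [h2]
  unfold places
  rw [List.map_flatMap, List.flatMap_def, List.sum_flatten, List.map_map]
  have h3 : ∀ j : Fin n, (List.map (fun p : Fin n × (Fin n → ℕ) =>
      if p.1 = i then MvPolynomial.monomial (Finsupp.equivFunOnFinite.symm p.2)
        ((f p.1).coeff (Finsupp.equivFunOnFinite.symm p.2)) else 0)
      ((exponents n d).map fun e => (j, e))).sum = if j = i then f j else 0 := by
    intro j
    rw [List.map_map]
    by_cases hj : j = i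
    · rw [if_pos hj]
      have h4 := sum_exponents (f j) (hd j)
      rw [← h4]
      congr 1
      apply List.map_congr_left
      intro e _
      simp only [Function.comp, if_pos hj]
    · rw [if_neg hj]
      have : ((fun p : Fin n × (Fin n → ℕ) =>
        if p.1 = i then MvPolynomial.monomial (Finsupp.equivFunOnFinite.symm p.2)
          ((f p.1).coeff (Finsupp.equivFunOnFinite.symm p.2)) else
            (0 : MvPolynomial (Fin n) ℚ)) ∘ fun e => (j, e)) = fun _ => 0 := by
        funext e
        simp [hj]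
      rw [this]
      simp
  have h5 : (List.sum ∘ fun j : Fin n => List.map (fun p : Fin n × (Fin n → ℕ) =>
      if p.1 = i then MvPolynomial.monomial (Finsupp.equivFunOnFinite.symm p.2)
        ((f p.1).coeff (Finsupp.equivFunOnFinite.symm p.2)) else 0)
      ((exponents n d).map fun e => (j, e))) = fun j => if j = i then f j else 0 := by
    funext j
    exact h3 j
  rw [h5, ← List.sum_toFinset _ (List.nodup_finRange n)]
  rw [Finset.sum_ite_eq' _ i]
  simp

end Pool.Agent.Arnold
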