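import Mathlib

/-!
# Stability of equilibria of polynomial vector fields: definitions
-/

open Filter Topology

namespace Pool.Agent.Arnold

/-- A polynomial vector field on `ℝⁿ` with rational coefficients: the list of its `n` components,
which are polynomials in `n` variables over `ℚ`. -/
abbrev PolyField (n : ℕ) := Fin n → MvPolynomial (Fin n) ℚ

/-- The map `ℝⁿ → ℝⁿ` given by a polynomial vector field (`ℝⁿ` with its Euclidean norm). -/
noncomputable def toMap {n : ℕ} (f : PolyField n) (x : EuclideanSpace ℝ (Fin n)) :
    EuclideanSpace ℝ (Fin n) :=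
  WithLp.toLp 2 fun i => MvPolynomial.aeval (fun j => x j) (f i)

/-- `φ` solves `x' = f(x)` on `[0,∞)` (one-sided derivative at `0`). -/
def IsSolution {n : ℕ} (f : PolyField n) (φ : ℝ → EuclideanSpace ℝ (Fin n)) : Prop :=
  ∀ t, 0 ≤ t → HasDerivWithinAt φ (toMap f (φ t)) (Set.Ici 0) t

/-- The origin is stable in the sense of Lyapunov: for every `ε > 0` there is `δ > 0` such that for
`|x₀| < δ` the solution starting at `x₀` is defined for all `t ≥ 0` and has norm `< ε`. -/
def LyapunovStable {n : ℕ} (f : PolyField n) : Prop :=
  ∀ ε : ℝ, 0 < ε → ∃ δ : ℝ, 0 < δ ∧ ∀ x₀ : EuclideanSpace ℝ (Fin n), ‖x₀‖ < δ →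
    ∃ φ : ℝ → EuclideanSpace ℝ (Fin n), φ 0 = x₀ ∧ IsSolution f φ ∧ ∀ t, 0 ≤ t → ‖φ t‖ < ε

/-- The origin is locally asymptotically stable: it is Lyapunov stable and all solutions starting
near the origin converge to the origin. -/
def LocallyAsymptoticallyStable {n : ℕ} (f : PolyField n) : Prop :=
  LyapunovStable f ∧ ∃ δ : ℝ, 0 < δ ∧ ∀ x₀ : EuclideanSpace ℝ (Fin n), ‖x₀‖ < δ →
    ∃ φ : ℝ → EuclideanSpace ℝ (Fin n), φ 0 = x₀ ∧ IsSolution f φ ∧ Tendsto φ atTop (𝓝 0)

/-- The origin is globally asymptotically stable: it is Lyapunov stable and all solutions exist for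
all `t ≥ 0` and converge to the origin. -/
def GloballyAsymptoticallyStable {n : ℕ} (f : PolyField n) : Prop :=
  LyapunovStable f ∧ ∀ x₀ : EuclideanSpace ℝ (Fin n),
    ∃ φ : ℝ → EuclideanSpace ℝ (Fin n), φ 0 = x₀ ∧ IsSolution f φ ∧ Tendsto φ atTop (𝓝 0)

/-- The list of all exponent vectors of total degree at most `d` in `n` variables. -/
def exponents (n d : ℕ) : List (Fin n → ℕ) :=
  (List.range (d + 1)).flatMap fun e => List.Nat.antidiagonalTuple n e

/-- The places of the coefficients of a vector field of degree at most `d` on `ℝⁿ`: all pairs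
(component, exponent vector of total degree at most `d`), in a fixed order. -/
def places (n d : ℕ) : List (Fin n × (Fin n → ℕ)) :=
  (List.finRange n).flatMap fun i => (exponents n d).map fun e => (i, e)

/-- The input of an algorithm: the dimension `n` and the list of the rational coefficients of the
field. The pair `(p, q)` stands for the rational number `p / (q + 1)`. -/
abbrev Input := ℕ × List (ℤ × ℕ)

/-- The vector field of degree at most `d` described by an input: the coefficients are listed in
the order of `places`. -/
noncomputable def Input.field (d : ℕ) (c : Input) : PolyField c.1 := fun i =>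
  (((places c.1 d).zip c.2).map fun t =>
    if t.1.1 = i then
      MvPolynomial.monomial (Finsupp.equivFunOnFinite.symm t.1.2) ((t.2.1 : ℚ) / (t.2.2 + 1))
    else 0).sum

/-- An input is admissible for degree bound `d`, if it lists exactly the coefficients for all
places, and if the field vanishes at the origin. -/
def Input.Admissible (d : ℕ) (c : Input) : Prop :=
  c.2.length = (places c.1 d).length ∧ ∀ i, MvPolynomial.eval 0 (c.field d i) = 0

/-- There is an algorithm which, given an admissible input of dimension `n` (and degree bound `d`),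
decides whether the field has the property `Q`. Algorithms are computable functions in the sense of
Mathlib, which are the same as functions computed by Turing machines. -/
def AlgorithmExists (n d : ℕ) (Q : ∀ {n : ℕ}, PolyField n → Prop) : Prop :=
  ∃ dec : Input → Bool, Computable dec ∧
    ∀ c : Input, c.1 = n → c.Admissible d → (dec c = true ↔ Q (c.field d))

end Pool.Agent.Arnold
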