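import Mathlib

/-!
# The vector field

Variables: `Y, B, c, s` and, for every `j : Fin k`, `X j, u j, v j`.
All definitions make sense over an arbitrary commutative ring. The element `hh` is the value of the
homogenised polynomial at `(X, Y)`.
-/

open Finset

namespace Pool.Agent.Arnold

/-- index set of the variables -/
abbrev V (k : ℕ) := Fin 4 ⊕ (Fin 3 × Fin k)

variable {k : ℕ}

abbrev vY : V k := Sum.inl 0
abbrev vB : V k := Sum.inl 1
abbrev vc : V k := Sum.inl 2
abbrev vs : V k := Sum.inl 3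
abbrev vX (j : Fin k) : V k := Sum.inr (0, j)
abbrev vu (j : Fin k) : V k := Sum.inr (1, j)
abbrev vv (j : Fin k) : V k := Sum.inr (2, j)

section ring

variable {R : Type*} [CommRing R]

/-- sum of squares of all variables -/
def nrm (x : V k → R) : R := ∑ i, x i ^ 2

/-- product of the squared radii of the rotors -/
def Efun (x : V k → R) : R := ∏ j : Fin k, (x (vu j) ^ 2 + x (vv j) ^ 2)

/-- the phase test -/
def Vfun (x : V k → R) : R := ∑ j : Fin k, x (vv j) ^ 2

/-- pulse denominator -/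
def hfun (x : V k → R) : R := x vB ^ 2 + x vs ^ 2

/-- leading damping -/
def Dfun (g : ℕ) (hh : R) (x : V k → R) : R :=
  x vY ^ 2 * x vB ^ 2 *
    (4 * Vfun x * nrm x ^ (k + g) + Efun x * (4 * hh ^ 2 - x vY ^ (2 * (g + 1))))

/-- total damping -/
def Dtot (g : ℕ) (hh : R) (x : V k → R) : R := Dfun g hh x + nrm x ^ (k + g + 4)

/-- speed of the base rotor -/
def om (g : ℕ) (x : V k → R) : R := x vY ^ 2 * hfun x * nrm x ^ (k + g + 1)

/-- speed of the `j`-th rotor -/
def omj (g : ℕ) (x : V k → R) (j : Fin k) : R :=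
  x (vX j) * x vY * hfun x * nrm x ^ (k + g + 1)

/-- rotation part of the vector field -/
def rot (g : ℕ) (x : V k → R) : V k → R
  | Sum.inl 0 => 0
  | Sum.inl 1 => 0
  | Sum.inl 2 => - (om g x * x vs)
  | Sum.inl 3 => om g x * x vc
  | Sum.inr (0, _) => 0
  | Sum.inr (1, j) => - (omj g x j * x (vv j))
  | Sum.inr (2, j) => omj g x j * x (vu j)

/-- the vector field -/
def fld (g : ℕ) (hh : R) (x : V k → R) (i : V k) : R := rot g x i - Dtot g hh x * x i

lemma nrm_eq (x : V k → R) : nrm x = x vY ^ 2 + x vB ^ 2 + x vc ^ 2 + x vs ^ 2 +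
    (∑ j : Fin k, x (vX j) ^ 2 + (∑ j : Fin k, x (vu j) ^ 2 + ∑ j : Fin k, x (vv j) ^ 2)) := by
  unfold nrm
  rw [Fintype.sum_sum_type, Fin.sum_univ_four, Fintype.sum_prod_type, Fin.sum_univ_three]
  ring

lemma sum_mul_rot (g : ℕ) (x : V k → R) : ∑ i, x i * rot g x i = 0 := by
  rw [Fintype.sum_sum_type, Fin.sum_univ_four, Fintype.sum_prod_type, Fin.sum_univ_three]
  simp only [rot, mul_zero, Finset.sum_const_zero, zero_add]
  rw [← Finset.sum_add_distrib, Finset.sum_eq_zero (s := Finset.univ) (f := fun j : Fin k =>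
    x (vu j) * -(omj g x j * x (vv j)) + x (vv j) * (omj g x j * x (vu j)))]
  · ring
  · intro j _
    ring

lemma nrm_smul (l : R) (x : V k → R) : nrm (fun i => l * x i) = l ^ 2 * nrm x := by
  unfold nrm
  rw [Finset.mul_sum]
  exact Finset.sum_congr rfl fun i _ => by ring

lemma hfun_smul (l : R) (x : V k → R) : hfun (fun i => l * x i) = l ^ 2 * hfun x := by
  unfold hfun; ring

lemma Vfun_smul (l : R) (x : V k → R) : Vfun (fun i => l * x i) = l ^ 2 * Vfun x := by
  unfold Vfun
  rw [Finset.mul_sum]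
  exact Finset.sum_congr rfl fun i _ => by ring

lemma Efun_smul (l : R) (x : V k → R) : Efun (fun i => l * x i) = l ^ (2 * k) * Efun x := by
  unfold Efun
  have : ∀ j : Fin k, (l * x (vu j)) ^ 2 + (l * x (vv j)) ^ 2 =
    l ^ 2 * (x (vu j) ^ 2 + x (vv j) ^ 2) := fun j => by ring
  rw [Finset.prod_congr rfl fun j _ => this j, Finset.prod_mul_distrib, Finset.prod_const,
    Finset.card_univ, Fintype.card_fin, ← pow_mul]

lemma om_smul (g : ℕ) (l : R) (x : V k → R) :
    om g (fun i => l * x i) = l ^ (2 * k + 2 * g + 6) * om g x := by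
  unfold om
  rw [nrm_smul, hfun_smul, mul_pow (l ^ 2) (nrm x), ← pow_mul]
  ring

lemma Dfun_smul (g : ℕ) (l : R) (hh : R) (x : V k → R) :
    Dfun g (l ^ (g + 1) * hh) (fun i => l * x i) = l ^ (2 * k + 2 * g + 6) * Dfun g hh x := by
  unfold Dfun
  rw [nrm_smul, Vfun_smul, Efun_smul, mul_pow (l ^ 2) (nrm x), ← pow_mul, mul_pow l (x vY)]
  ring

end ring

section hom

variable {R S : Type*} [CommRing R] [CommRing S] (φ : R →+* S)

lemma map_nrm (x : V k → R) : φ (nrm x) = nrm (fun i => φ (x i)) := by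
  simp [nrm]

lemma map_Efun (x : V k → R) : φ (Efun x) = Efun (fun i => φ (x i)) := by
  simp [Efun]

lemma map_Vfun (x : V k → R) : φ (Vfun x) = Vfun (fun i => φ (x i)) := by
  simp [Vfun]

lemma map_hfun (x : V k → R) : φ (hfun x) = hfun (fun i => φ (x i)) := by
  simp [hfun]

lemma map_Dfun (g : ℕ) (hh : R) (x : V k → R) :
    φ (Dfun g hh x) = Dfun g (φ hh) (fun i => φ (x i)) := by
  have h4 : φ 4 = 4 := map_ofNat φ 4
  simp [Dfun, map_nrm, map_Efun, map_Vfun, h4]

lemma map_Dtot (g : ℕ) (hh : R) (x : V k → R) :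
    φ (Dtot g hh x) = Dtot g (φ hh) (fun i => φ (x i)) := by
  simp [Dtot, map_nrm, map_Dfun]

lemma map_om (g : ℕ) (x : V k → R) : φ (om g x) = om g (fun i => φ (x i)) := by
  simp [om, map_nrm, map_hfun]

lemma map_omj (g : ℕ) (x : V k → R) (j : Fin k) : φ (omj g x j) = omj g (fun i => φ (x i)) j := by
  simp [omj, map_nrm, map_hfun]

lemma map_fld (g : ℕ) (hh : R) (x : V k → R) (i : V k) :
    φ (fld g hh x i) = fld g (φ hh) (fun i => φ (x i)) i := by
  unfold fld
  rw [map_sub, map_mul, map_Dtot]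
  congr 1
  rcases i with i | ⟨i, j⟩
  · fin_cases i <;> simp [rot, map_om]
  · fin_cases i <;> simp [rot, map_omj]

end hom

end Pool.Agent.Arnold
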