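import Pool.Agent.Arnold.Field

/-!
# Representation of the solutions
-/

open Finset Set

namespace Pool.Agent.Arnold

/-- a real function on `[0,∞)` with zero derivative is constant -/
lemma const_of_deriv_zero {f : ℝ → ℝ}
    (h : ∀ t, 0 ≤ t → HasDerivWithinAt f 0 (Ici 0) t) : ∀ t, 0 ≤ t → f t = f 0 := by
  intro t ht
  refine constant_of_has_deriv_right_zero (a := 0) (b := t) ?_ ?_ t ⟨ht, le_rfl⟩
  · intro s hs
    exact (h s hs.1).continuousWithinAt.mono Icc_subset_Ici_self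
  · intro s hs
    exact (h s hs.1).mono (Ici_subset_Ici.2 hs.1)

/-- primitive on `[0,∞)` -/
noncomputable def prim (f : ℝ → ℝ) (t : ℝ) : ℝ := ∫ s in (0 : ℝ)..t, f (max s 0)

lemma prim_zero (f : ℝ → ℝ) : prim f 0 = 0 := by simp [prim]

lemma continuous_max_comp {f : ℝ → ℝ} (hf : ContinuousOn f (Ici 0)) :
    Continuous fun s => f (max s 0) :=
  hf.comp_continuous (by fun_prop) fun s => mem_Ici.2 (le_max_right _ _)

lemma hasDeriv_prim {f : ℝ → ℝ} (hf : ContinuousOn f (Ici 0)) {t : ℝ} (ht : 0 ≤ t) :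
    HasDerivWithinAt (prim f) (f t) (Ici 0) t := by
  have hc := continuous_max_comp hf
  have h := intervalIntegral.integral_hasDerivAt_right (hc.intervalIntegrable 0 t)
    (hc.stronglyMeasurableAtFilter _ _) hc.continuousAt
  rw [max_eq_left ht] at h
  exact h.hasDerivWithinAt

lemma prim_nonneg {f : ℝ → ℝ} (h : ∀ t, 0 ≤ t → 0 ≤ f t) {t : ℝ} (ht : 0 ≤ t) :
    0 ≤ prim f t := by
  apply intervalIntegral.integral_nonneg ht
  intro s _
  exact h _ (le_max_right _ _)

lemma prim_mono {f g : ℝ → ℝ} (hf : ContinuousOn f (Ici 0)) (hg : ContinuousOn g (Ici 0))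
    (h : ∀ t, 0 ≤ t → f t ≤ g t) {t : ℝ} (ht : 0 ≤ t) : prim f t ≤ prim g t := by
  apply intervalIntegral.integral_mono_on ht
    ((continuous_max_comp hf).intervalIntegrable _ _)
    ((continuous_max_comp hg).intervalIntegrable _ _)
  intro s _
  exact h _ (le_max_right _ _)

lemma prim_const_mul (c : ℝ) (f : ℝ → ℝ) (t : ℝ) : prim (fun s => c * f s) t = c * prim f t := by
  unfold prim
  exact intervalIntegral.integral_const_mul c _

lemma scalar_block {y d L : ℝ → ℝ} (hL : ∀ t, 0 ≤ t → HasDerivWithinAt L (d t) (Ici 0) t)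
    (hL0 : L 0 = 0) (hy : ∀ t, 0 ≤ t → HasDerivWithinAt y (-(d t * y t)) (Ici 0) t) :
    ∀ t, 0 ≤ t → y t = Real.exp (-(L t)) * y 0 := by
  intro t ht
  have h := const_of_deriv_zero (f := fun t => Real.exp (L t) * y t) (fun t ht => by
    have h1 := ((hL t ht).exp.mul (hy t ht))
    refine h1.congr_deriv ?_
    ring) t ht
  simp only [hL0, Real.exp_zero, one_mul] at h
  rw [← h, ← mul_assoc, ← Real.exp_add]
  simp

lemma rot_block {p q w d L O : ℝ → ℝ} (hL : ∀ t, 0 ≤ t → HasDerivWithinAt L (d t) (Ici 0) t)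
    (hO : ∀ t, 0 ≤ t → HasDerivWithinAt O (w t) (Ici 0) t)
    (hL0 : L 0 = 0) (hO0 : O 0 = 0)
    (hp : ∀ t, 0 ≤ t → HasDerivWithinAt p (-(w t * q t) - d t * p t) (Ici 0) t)
    (hq : ∀ t, 0 ≤ t → HasDerivWithinAt q (w t * p t - d t * q t) (Ici 0) t) :
    ∀ t, 0 ≤ t → p t = Real.exp (-(L t)) * (p 0 * Real.cos (O t) - q 0 * Real.sin (O t)) ∧
      q t = Real.exp (-(L t)) * (p 0 * Real.sin (O t) + q 0 * Real.cos (O t)) := by
  intro t ht
  have h1 := const_of_deriv_zero
    (f := fun t => Real.exp (L t) * (p t * Real.cos (O t) + q t * Real.sin (O t)))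
    (fun t ht => by
      have h1 := ((hL t ht).exp.mul (((hp t ht).mul (hO t ht).cos).add
        ((hq t ht).mul (hO t ht).sin)))
      refine h1.congr_deriv ?_
      simp only [Pi.mul_apply, Pi.add_apply]
      ring) t ht
  have h2 := const_of_deriv_zero
    (f := fun t => Real.exp (L t) * (q t * Real.cos (O t) - p t * Real.sin (O t)))
    (fun t ht => by
      have h1 := ((hL t ht).exp.mul (((hq t ht).mul (hO t ht).cos).sub
        ((hp t ht).mul (hO t ht).sin)))
      refine h1.congr_deriv ?_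
      simp only [Pi.mul_apply, Pi.sub_apply]
      ring) t ht
  simp only [hL0, hO0, Real.exp_zero, one_mul, Real.cos_zero, Real.sin_zero, mul_one, mul_zero,
    add_zero, sub_zero] at h1 h2
  have hcs := Real.sin_sq_add_cos_sq (O t)
  have he : Real.exp (-(L t)) * Real.exp (L t) = 1 := by rw [← Real.exp_add]; simp
  constructor
  · rw [← h1, ← h2]
    calc p t = (Real.exp (-(L t)) * Real.exp (L t)) *
          (p t * (Real.sin (O t) ^ 2 + Real.cos (O t) ^ 2)) := by rw [he, hcs]; ring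
      _ = _ := by ring
  · rw [← h1, ← h2]
    calc q t = (Real.exp (-(L t)) * Real.exp (L t)) *
          (q t * (Real.sin (O t) ^ 2 + Real.cos (O t) ^ 2)) := by rw [he, hcs]; ring
      _ = _ := by ring

variable {k : ℕ}

/-- the state `x₀` rotated by the base angle `θ`; the `j`-th rotor turns `X j / Y` times as fast -/
noncomputable def rotst (x₀ : V k → ℝ) (θ : ℝ) : V k → ℝ
  | Sum.inl 0 => x₀ vY
  | Sum.inl 1 => x₀ vB
  | Sum.inl 2 => x₀ vc * Real.cos θ - x₀ vs * Real.sin θ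
  | Sum.inl 3 => x₀ vc * Real.sin θ + x₀ vs * Real.cos θ
  | Sum.inr (0, j) => x₀ (vX j)
  | Sum.inr (1, j) => x₀ (vu j) * Real.cos (x₀ (vX j) / x₀ vY * θ) -
      x₀ (vv j) * Real.sin (x₀ (vX j) / x₀ vY * θ)
  | Sum.inr (2, j) => x₀ (vu j) * Real.sin (x₀ (vX j) / x₀ vY * θ) +
      x₀ (vv j) * Real.cos (x₀ (vX j) / x₀ vY * θ)

lemma nrm_rotst (x₀ : V k → ℝ) (θ : ℝ) : nrm (rotst x₀ θ) = nrm x₀ := by
  rw [nrm_eq, nrm_eq]
  simp only [rotst]
  have h1 : ∀ a b t : ℝ, (a * Real.cos t - b * Real.sin t) ^ 2 +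
      (a * Real.sin t + b * Real.cos t) ^ 2 = a ^ 2 + b ^ 2 := by
    intro a b t
    have := Real.sin_sq_add_cos_sq t
    calc _ = (a ^ 2 + b ^ 2) * (Real.sin t ^ 2 + Real.cos t ^ 2) := by ring
      _ = _ := by rw [this, mul_one]
  rw [← Finset.sum_add_distrib (f := fun j : Fin k => (x₀ (vu j) *
    Real.cos (x₀ (vX j) / x₀ vY * θ) - x₀ (vv j) * Real.sin (x₀ (vX j) / x₀ vY * θ)) ^ 2),
    Finset.sum_congr rfl fun j _ => h1 (x₀ (vu j)) (x₀ (vv j)) (x₀ (vX j) / x₀ vY * θ),
    Finset.sum_add_distrib]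
  have := h1 (x₀ vc) (x₀ vs) θ
  linarith

lemma Efun_rotst (x₀ : V k → ℝ) (θ : ℝ) : Efun (rotst x₀ θ) = Efun x₀ := by
  unfold Efun
  apply Finset.prod_congr rfl
  intro j _
  simp only [rotst]
  have := Real.sin_sq_add_cos_sq (x₀ (vX j) / x₀ vY * θ)
  calc _ = (x₀ (vu j) ^ 2 + x₀ (vv j) ^ 2) * (Real.sin (x₀ (vX j) / x₀ vY * θ) ^ 2 +
      Real.cos (x₀ (vX j) / x₀ vY * θ) ^ 2) := by ring
    _ = _ := by rw [this, mul_one]

/-- The data used: the value `Hf x` of the homogenised polynomial at the state `x` depends only on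
`X` and `Y`, is homogeneous of degree `g + 1` and continuous. -/
structure GoodH (g : ℕ) (Hf : (V k → ℝ) → ℝ) : Prop where
  cont : Continuous Hf
  dep : ∀ x y : V k → ℝ, x vY = y vY → (∀ j, x (vX j) = y (vX j)) → Hf x = Hf y
  hom : ∀ (l : ℝ) (x : V k → ℝ), Hf (fun i => l * x i) = l ^ (g + 1) * Hf x

lemma continuous_nrm : Continuous (fun x : V k → ℝ => nrm x) := by
  unfold nrm; fun_prop

lemma continuous_Efun : Continuous (fun x : V k → ℝ => Efun x) := by
  unfold Efun; fun_prop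

lemma continuous_Vfun : Continuous (fun x : V k → ℝ => Vfun x) := by
  unfold Vfun; fun_prop

lemma continuous_hfun : Continuous (fun x : V k → ℝ => hfun x) := by
  unfold hfun; fun_prop

lemma continuous_om (g : ℕ) : Continuous (fun x : V k → ℝ => om g x) := by
  unfold om
  have h1 := continuous_nrm (k := k)
  have h2 := continuous_hfun (k := k)
  fun_prop

lemma continuous_omj (g : ℕ) (j : Fin k) : Continuous (fun x : V k → ℝ => omj g x j) := by
  unfold omj
  have h1 := continuous_nrm (k := k)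
  have h2 := continuous_hfun (k := k)
  fun_prop

lemma continuous_Dfun {g : ℕ} {Hf : (V k → ℝ) → ℝ} (hH : GoodH g Hf) :
    Continuous (fun x : V k → ℝ => Dfun g (Hf x) x) := by
  unfold Dfun
  have h1 := continuous_nrm (k := k)
  have h2 := continuous_Efun (k := k)
  have h3 := continuous_Vfun (k := k)
  have h4 := hH.cont
  fun_prop

lemma continuous_Dtot {g : ℕ} {Hf : (V k → ℝ) → ℝ} (hH : GoodH g Hf) :
    Continuous (fun x : V k → ℝ => Dtot g (Hf x) x) := by
  unfold Dtot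
  exact (continuous_Dfun hH).add (continuous_nrm.pow _)

lemma continuous_rotst (x₀ : V k → ℝ) : Continuous (rotst x₀) := by
  rw [continuous_pi_iff]
  intro i
  rcases i with i | ⟨i, j⟩
  · fin_cases i <;> simp only [rotst] <;> fun_prop
  · fin_cases i <;> simp only [rotst] <;> fun_prop

/-- A path: `x' = m(t) F(x)` on `[0,∞)`. -/
structure IsPath (g : ℕ) (Hf : (V k → ℝ) → ℝ) (m : ℝ → ℝ) (x : ℝ → V k → ℝ) : Prop where
  mcont : Continuous m
  mnn : ∀ t, 0 ≤ m t
  deriv : ∀ t, 0 ≤ t → ∀ i, HasDerivWithinAt (fun t => x t i)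
    (m t * fld g (Hf (x t)) (x t) i) (Ici 0) t

namespace IsPath

variable {g : ℕ} {Hf : (V k → ℝ) → ℝ} {m : ℝ → ℝ} {x : ℝ → V k → ℝ}

lemma contOn (h : IsPath g Hf m x) : ContinuousOn x (Ici 0) := by
  rw [continuousOn_pi]
  intro i t ht
  exact (h.deriv t ht i).continuousWithinAt

/-- damping integrand -/
def dd (g : ℕ) (Hf : (V k → ℝ) → ℝ) (m : ℝ → ℝ) (x : ℝ → V k → ℝ) (t : ℝ) : ℝ :=
  m t * Dtot g (Hf (x t)) (x t)

/-- total damping exponent -/
noncomputable def Lam (g : ℕ) (Hf : (V k → ℝ) → ℝ) (m : ℝ → ℝ) (x : ℝ → V k → ℝ) : ℝ → ℝ :=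
  prim (dd g Hf m x)

/-- base angle -/
noncomputable def Om (g : ℕ) (m : ℝ → ℝ) (x : ℝ → V k → ℝ) : ℝ → ℝ :=
  prim (fun t => m t * om g (x t))

/-- background exponent -/
noncomputable def Mb (g : ℕ) (m : ℝ → ℝ) (x : ℝ → V k → ℝ) : ℝ → ℝ :=
  prim (fun t => m t * nrm (x t) ^ (k + g + 4))

lemma dd_cont (h : IsPath g Hf m x) (hH : GoodH g Hf) : ContinuousOn (dd g Hf m x) (Ici 0) :=
  h.mcont.continuousOn.mul ((continuous_Dtot hH).comp_continuousOn h.contOn)

lemma om_cont (h : IsPath g Hf m x) : ContinuousOn (fun t => m t * om g (x t)) (Ici 0) :=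
  h.mcont.continuousOn.mul ((continuous_om g).comp_continuousOn h.contOn)

lemma mb_cont (h : IsPath g Hf m x) :
    ContinuousOn (fun t => m t * nrm (x t) ^ (k + g + 4)) (Ici 0) :=
  h.mcont.continuousOn.mul ((continuous_nrm.pow _).comp_continuousOn h.contOn)

lemma Lam_deriv (h : IsPath g Hf m x) (hH : GoodH g Hf) :
    ∀ t, 0 ≤ t → HasDerivWithinAt (Lam g Hf m x) (dd g Hf m x t) (Ici 0) t :=
  fun _ ht => hasDeriv_prim (h.dd_cont hH) ht

lemma Om_deriv (h : IsPath g Hf m x) :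
    ∀ t, 0 ≤ t → HasDerivWithinAt (Om g m x) (m t * om g (x t)) (Ici 0) t :=
  fun _ ht => hasDeriv_prim h.om_cont ht

lemma Mb_deriv (h : IsPath g Hf m x) :
    ∀ t, 0 ≤ t → HasDerivWithinAt (Mb g m x) (m t * nrm (x t) ^ (k + g + 4)) (Ici 0) t :=
  fun _ ht => hasDeriv_prim h.mb_cont ht

lemma nrm_nonneg' (x : V k → ℝ) : 0 ≤ nrm x := Finset.sum_nonneg fun _ _ => sq_nonneg _

lemma om_nonneg (g : ℕ) (x : V k → ℝ) : 0 ≤ om g x := by
  unfold om hfun
  have := nrm_nonneg' x
  positivity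

lemma Om_nonneg (h : IsPath g Hf m x) {t : ℝ} (ht : 0 ≤ t) : 0 ≤ Om g m x t :=
  prim_nonneg (fun t _ => mul_nonneg (h.mnn t) (om_nonneg g _)) ht

lemma Mb_nonneg (h : IsPath g Hf m x) {t : ℝ} (ht : 0 ≤ t) : 0 ≤ Mb g m x t :=
  prim_nonneg (fun t _ => mul_nonneg (h.mnn t) (pow_nonneg (nrm_nonneg' _) _)) ht

/-- the norm decays exactly like `exp (-2 Λ)` -/
lemma nrm_path (h : IsPath g Hf m x) (hH : GoodH g Hf) :
    ∀ t, 0 ≤ t → nrm (x t) = Real.exp (-(2 * Lam g Hf m x t)) * nrm (x 0) := by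
  apply scalar_block (y := fun t => nrm (x t)) (d := fun t => 2 * dd g Hf m x t)
    (L := fun t => 2 * Lam g Hf m x t)
  · intro t ht
    exact (h.Lam_deriv hH t ht).const_mul 2
  · simp [Lam, prim_zero]
  · intro t ht
    have h1 : HasDerivWithinAt (fun t => nrm (x t))
        (∑ i, 2 * x t i ^ 1 * (m t * fld g (Hf (x t)) (x t) i)) (Ici 0) t := by
      unfold nrm
      apply HasDerivWithinAt.fun_sum
      intro i _
      exact ((h.deriv t ht i).pow 2).congr_deriv (by norm_num)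
    refine h1.congr_deriv ?_
    have h2 := sum_mul_rot g (x t)
    unfold dd fld
    have h3 : ∑ i, 2 * x t i ^ 1 * (m t * (rot g (x t) i - Dtot g (Hf (x t)) (x t) * x t i)) =
        2 * m t * ∑ i, x t i * rot g (x t) i -
        2 * m t * Dtot g (Hf (x t)) (x t) * ∑ i, x t i ^ 2 := by
      rw [Finset.mul_sum, Finset.mul_sum, ← Finset.sum_sub_distrib]
      exact Finset.sum_congr rfl fun i _ => by ring
    rw [h3, h2]
    unfold nrm
    ring

lemma scalar_path (h : IsPath g Hf m x) (hH : GoodH g Hf) {i : V k}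
    (hi : ∀ t, rot g (x t) i = 0) :
    ∀ t, 0 ≤ t → x t i = Real.exp (-(Lam g Hf m x t)) * x 0 i := by
  apply scalar_block (y := fun t => x t i) (d := dd g Hf m x) (h.Lam_deriv hH)
  · simp [Lam, prim_zero]
  · intro t ht
    refine (h.deriv t ht i).congr_deriv ?_
    unfold dd fld
    rw [hi]
    ring

/-- full representation, if `Y ≠ 0` -/
lemma rep (h : IsPath g Hf m x) (hH : GoodH g Hf) (hY : x 0 vY ≠ 0) :
    ∀ t, 0 ≤ t → x t = fun i => Real.exp (-(Lam g Hf m x t)) * rotst (x 0) (Om g m x t) i := by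
  intro t ht
  funext i
  have hYt : ∀ t, 0 ≤ t → x t vY = Real.exp (-(Lam g Hf m x t)) * x 0 vY :=
    h.scalar_path hH fun _ => rfl
  have hXt : ∀ j : Fin k, ∀ t, 0 ≤ t → x t (vX j) = Real.exp (-(Lam g Hf m x t)) * x 0 (vX j) :=
    fun j => h.scalar_path hH fun _ => rfl
  have hBt : ∀ t, 0 ≤ t → x t vB = Real.exp (-(Lam g Hf m x t)) * x 0 vB :=
    h.scalar_path hH fun _ => rfl
  have hbase := rot_block (p := fun t => x t vc) (q := fun t => x t vs)
    (w := fun t => m t * om g (x t)) (d := dd g Hf m x) (L := Lam g Hf m x) (O := Om g m x)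
    (h.Lam_deriv hH) h.Om_deriv (by simp [Lam, prim_zero]) (by simp [Om, prim_zero])
    (fun t ht => (h.deriv t ht vc).congr_deriv (by
      show m t * (-(om g (x t) * x t vs) - _) = _
      unfold dd
      ring))
    (fun t ht => (h.deriv t ht vs).congr_deriv (by
      show m t * (om g (x t) * x t vc - _) = _
      unfold dd
      ring)) t ht
  have hj : ∀ j : Fin k, _ := fun j => rot_block (p := fun t => x t (vu j))
    (q := fun t => x t (vv j))
    (w := fun t => m t * omj g (x t) j) (d := dd g Hf m x) (L := Lam g Hf m x)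
    (O := fun t => x 0 (vX j) / x 0 vY * Om g m x t)
    (h.Lam_deriv hH) (fun t ht => ((h.Om_deriv t ht).const_mul _).congr_deriv (by
      have e1 := hYt t ht
      have e2 := hXt j t ht
      unfold omj om
      rw [e1, e2]
      field_simp)) (by simp [Lam, prim_zero]) (by simp [Om, prim_zero])
    (fun t ht => (h.deriv t ht (vu j)).congr_deriv (by
      show m t * (-(omj g (x t) j * x t (vv j)) - _) = _
      unfold dd
      ring))
    (fun t ht => (h.deriv t ht (vv j)).congr_deriv (by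
      show m t * (omj g (x t) j * x t (vu j) - _) = _
      unfold dd
      ring)) t ht
  rcases i with i | ⟨i, j⟩
  · fin_cases i
    · exact hYt t ht
    · exact hBt t ht
    · exact hbase.1
    · exact hbase.2
  · fin_cases i
    · exact hXt j t ht
    · exact (hj j).1
    · exact (hj j).2

end IsPath

end Pool.Agent.Arnold
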