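import Pool.Agent.Arnold.Code
import Pool.Agent.MRDP.Main

/-!
# Stability of equilibria of polynomial vector fields is undecidable
-/

open Finset

namespace Pool.Agent.Arnold

variable {k : ℕ}

/-- number of variables -/
abbrev dimV (k : ℕ) : ℕ := Fintype.card (V k)

/-- numbering of the variables -/
noncomputable def num (k : ℕ) : V k ≃ Fin (dimV k) := Fintype.equivFin (V k)

/-- the variables -/
noncomputable def Xv (R : Type*) [CommRing R] (k : ℕ) (v : V k) : MvPolynomial (Fin (dimV k)) R :=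
  MvPolynomial.X (num k v)

/-- the vector field with the parameter as an indeterminate -/
noncomputable def genField (P : MvPolynomial (Fin (k + 1)) ℤ) (g : ℕ) (i : Fin (dimV k)) :
    MvPolynomial (Fin (dimV k)) (Polynomial ℤ) :=
  fld g (Hgen P g (MvPolynomial.C Polynomial.X) (Xv (Polynomial ℤ) k)) (Xv (Polynomial ℤ) k)
    ((num k).symm i)

/-- the vector field for the parameter value `a` -/
noncomputable def fieldA (P : MvPolynomial (Fin (k + 1)) ℤ) (g a : ℕ) : PolyField (dimV k) :=
  fun i => fld g (Hgen P g (MvPolynomial.C (a : ℚ)) (Xv ℚ k)) (Xv ℚ k) ((num k).symm i)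

/-- evaluation at the parameter value -/
noncomputable def evA (a : ℕ) : Polynomial ℤ →+* ℚ :=
  Polynomial.eval₂RingHom (Int.castRingHom ℚ) (a : ℚ)

lemma evA_apply (a : ℕ) (q : Polynomial ℤ) : evA a q = ((q.eval (a : ℤ) : ℤ) : ℚ) := by
  have h := Polynomial.eval₂_at_apply (p := q) (Int.castRingHom ℚ) (a : ℤ)
  simp only [eq_intCast, Int.cast_natCast] at h
  exact h

lemma fieldA_eq (P : MvPolynomial (Fin (k + 1)) ℤ) (g a : ℕ) (i : Fin (dimV k)) :
    fieldA P g a i = MvPolynomial.map (evA a) (genField P g i) := by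
  unfold fieldA genField
  rw [map_fld, map_Hgen]
  have h1 : (fun v : V k => (MvPolynomial.map (evA a)) (Xv (Polynomial ℤ) k v)) = Xv ℚ k := by
    funext v
    simp [Xv]
  have h2 : (MvPolynomial.map (evA a)) (MvPolynomial.C Polynomial.X :
      MvPolynomial (Fin (dimV k)) (Polynomial ℤ)) = MvPolynomial.C (a : ℚ) := by
    rw [MvPolynomial.map_C, evA_apply]
    simp
  rw [h1, h2]

/-- degree bound -/
noncomputable def degV (P : MvPolynomial (Fin (k + 1)) ℤ) (g : ℕ) : ℕ :=
  Finset.univ.sup fun i => (genField P g i).totalDegree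

lemma degree_fieldA (P : MvPolynomial (Fin (k + 1)) ℤ) (g a : ℕ) (i : Fin (dimV k)) :
    (fieldA P g a i).totalDegree ≤ degV P g := by
  rw [fieldA_eq]
  refine le_trans ?_
    (Finset.le_sup (f := fun i => (genField P g i).totalDegree) (Finset.mem_univ i))
  unfold MvPolynomial.totalDegree
  exact Finset.sup_mono (MvPolynomial.support_map_subset _ _)

lemma represents (P : MvPolynomial (Fin (k + 1)) ℤ) (g a : ℕ) :
    Represents (num k) g (Ha P g a) (fieldA P g a) := by
  intro y i
  have h := map_fld ((MvPolynomial.aeval y : MvPolynomial (Fin (dimV k)) ℚ →ₐ[ℚ] ℝ) :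
    MvPolynomial (Fin (dimV k)) ℚ →+* ℝ) g (Hgen P g (MvPolynomial.C (a : ℚ)) (Xv ℚ k)) (Xv ℚ k)
    ((num k).symm i)
  rw [map_Hgen] at h
  have h1 : (fun v : V k => ((MvPolynomial.aeval y : MvPolynomial (Fin (dimV k)) ℚ →ₐ[ℚ] ℝ) :
      MvPolynomial (Fin (dimV k)) ℚ →+* ℝ) (Xv ℚ k v)) = fun v => y (num k v) := by
    funext v
    simp [Xv]
  have h2 : ((MvPolynomial.aeval y : MvPolynomial (Fin (dimV k)) ℚ →ₐ[ℚ] ℝ) :
      MvPolynomial (Fin (dimV k)) ℚ →+* ℝ) (MvPolynomial.C (a : ℚ)) = (a : ℝ) := by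
    simp
  rw [h1, h2] at h
  exact h

lemma eval_zero_fieldA (P : MvPolynomial (Fin (k + 1)) ℤ) (g a : ℕ) (i : Fin (dimV k)) :
    MvPolynomial.eval 0 (fieldA P g a i) = 0 := by
  unfold fieldA
  rw [map_fld]
  have h1 : (fun v : V k => MvPolynomial.eval 0 (Xv ℚ k v)) = fun _ => 0 := by
    funext v
    simp [Xv]
  rw [h1]
  generalize MvPolynomial.eval 0 (Hgen P g (MvPolynomial.C (a : ℚ)) (Xv ℚ k)) = hh
  unfold fld
  rw [mul_zero, sub_zero]
  generalize (num k).symm i = v
  rcases v with v | ⟨v, j⟩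
  · fin_cases v <;> simp [rot]
  · fin_cases v <;> simp [rot]

/-- the input that describes the field for the parameter value `a` -/
noncomputable def code (P : MvPolynomial (Fin (k + 1)) ℤ) (g a : ℕ) : Input :=
  mkInput (dimV k) (degV P g) fun i e =>
    ((genField P g i).coeff (Finsupp.equivFunOnFinite.symm e)).eval (a : ℤ)

lemma field_code (P : MvPolynomial (Fin (k + 1)) ℤ) (g a : ℕ) :
    Input.field (degV P g) (code P g a) = fieldA P g a := by
  apply field_mkInput
  · exact degree_fieldA P g a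
  · intro i e
    rw [fieldA_eq, MvPolynomial.coeff_map, evA_apply]

lemma admissible_code (P : MvPolynomial (Fin (k + 1)) ℤ) (g a : ℕ) :
    (code P g a).Admissible (degV P g) := by
  constructor
  · exact List.length_map _
  · rw [field_code]
    exact eval_zero_fieldA P g a

lemma computable_code (P : MvPolynomial (Fin (k + 1)) ℤ) (g : ℕ) : Computable (code P g) := by
  apply Primrec.to_comp
  apply Primrec.pair (Primrec.const _)
  apply primrec_list_map
  intro p
  exact Primrec.pair (primrec_poly_eval _) (Primrec.const 0)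

/-- A property that separates the fields with and without integer zero is undecidable. -/
lemma no_algorithm {m : ℕ} {P : MvPolynomial (Fin (m + 1)) ℤ} {g : ℕ}
    (hP : ¬ ComputablePred (fun a : ℕ => ∃ x : Fin m → ℤ,
      MvPolynomial.eval (Fin.cons (a : ℤ) x : Fin (m + 1) → ℤ) P = 0))
    (Q : ∀ {n : ℕ}, PolyField n → Prop)
    (h1 : ∀ a : ℕ, (∃ x : Fin m → ℤ,
      MvPolynomial.eval (Fin.cons (a : ℤ) x : Fin (m + 1) → ℤ) P = 0) → ¬ Q (fieldA P g a))
    (h2 : ∀ a : ℕ, (¬ ∃ x : Fin m → ℤ,
      MvPolynomial.eval (Fin.cons (a : ℤ) x : Fin (m + 1) → ℤ) P = 0) → Q (fieldA P g a)) :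
    ¬ AlgorithmExists (dimV m) (degV P g) Q := by
  rintro ⟨dec, hdec, hQ⟩
  apply hP
  classical
  refine ⟨fun _ => Classical.dec _, ?_⟩
  have hc : Computable fun a => !(dec (code P g a)) :=
    Primrec.not.to_comp.comp (hdec.comp (computable_code P g))
  refine hc.of_eq fun a => ?_
  have h3 := hQ (code P g a) rfl (admissible_code P g a)
  rw [field_code] at h3
  by_cases hx : ∃ x : Fin m → ℤ,
      MvPolynomial.eval (Fin.cons (a : ℤ) x : Fin (m + 1) → ℤ) P = 0
  · have h4 : dec (code P g a) = false := by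
      rw [← Bool.not_eq_true]
      exact fun h => h1 a hx (h3.1 h)
    rw [h4]
    symm
    simpa using hx
  · have h4 : dec (code P g a) = true := h3.2 (h2 a hx)
    rw [h4]
    symm
    simpa using hx

/-- For suitable fixed dimension and degree, no algorithm decides any of the three notions of
stability. -/
theorem stability_undecidable : ∃ n d : ℕ, ¬ AlgorithmExists n d LyapunovStable ∧
    ¬ AlgorithmExists n d LocallyAsymptoticallyStable ∧
    ¬ AlgorithmExists n d GloballyAsymptoticallyStable := by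
  obtain ⟨m, P, hP⟩ := Pool.Agent.MRDP.exists_undecidable_polynomial_int
  obtain ⟨G, hG⟩ := exists_noZero P
  set g := G + P.totalDegree with hg
  have hg1 : G ≤ g + 1 := by omega
  have hg2 : P.totalDegree ≤ g + 1 := by omega
  have h1 : ∀ a : ℕ, (∃ x : Fin m → ℤ,
      MvPolynomial.eval (Fin.cons (a : ℤ) x : Fin (m + 1) → ℤ) P = 0) →
      ¬ LyapunovStable (fieldA P g a) := by
    rintro a ⟨x, hx⟩
    apply not_stable_of_zero (represents P g a) (goodH hg2 a) x
    intro β
    rw [Ha_e0, val_int, hx, Int.cast_zero]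
  have h2 : ∀ a : ℕ, (¬ ∃ x : Fin m → ℤ,
      MvPolynomial.eval (Fin.cons (a : ℤ) x : Fin (m + 1) → ℤ) P = 0) →
      GloballyAsymptoticallyStable (fieldA P g a) := by
    intro a ha
    obtain ⟨C, hC⟩ := hG g hg1 hg2 a fun z hz => ha ⟨z, hz⟩
    exact stable_of_noZero (represents P g a) (goodH hg2 a) hC
  refine ⟨dimV m, degV P g, ?_, ?_, ?_⟩
  · exact no_algorithm hP LyapunovStable h1 fun a ha => (h2 a ha).1
  · exact no_algorithm hP LocallyAsymptoticallyStable (fun a ha h => h1 a ha h.1)
      fun a ha => las_of_gas (h2 a ha)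
  · exact no_algorithm hP GloballyAsymptoticallyStable (fun a ha h => h1 a ha h.1) h2

end Pool.Agent.Arnold
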