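import Mathlib

/-!
# Global existence of solutions under an a priori bound
-/

open Set Filter Metric
open scoped NNReal Topology

namespace Pool.Agent.Arnold

variable {E : Type*} [NormedAddCommGroup E] [NormedSpace ℝ E]

/-- A bounded and globally Lipschitz vector field has global solutions. -/
lemma exists_global_of_lipschitz [CompleteSpace E] (g : E → E) (K L : ℝ≥0)
    (hK : LipschitzWith K g) (hL : ∀ x, ‖g x‖ ≤ L) (x₀ : E) :
    ∃ φ : ℝ → E, φ 0 = x₀ ∧ ∀ t, HasDerivAt φ (g (φ t)) t := by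
  have hex : ∀ n : ℕ, ∃ α : ℝ → E, α 0 = x₀ ∧
      ∀ t ∈ Ioo (-((n : ℝ) + 1)) ((n : ℝ) + 1), HasDerivAt α (g (α t)) t := by
    intro n
    have hT : (0 : ℝ) ≤ (n : ℝ) + 1 := by positivity
    have h0 : (0 : ℝ) ∈ Icc (-((n : ℝ) + 1)) ((n : ℝ) + 1) := ⟨by linarith, hT⟩
    have hP : IsPicardLindelof (fun _ : ℝ => g) (tmin := -((n : ℝ) + 1)) (tmax := (n : ℝ) + 1)
        ⟨0, h0⟩ x₀ (L * (n + 1)) 0 L K := by
      apply IsPicardLindelof.of_time_independent
      · intro x _; exact hL x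
      · exact hK.lipschitzOnWith
      · simp
    obtain ⟨α, hα0, hα⟩ := hP.exists_eq_forall_mem_Icc_hasDerivWithinAt₀
    refine ⟨α, hα0, fun t ht => ?_⟩
    exact (hα t (Ioo_subset_Icc_self ht)).hasDerivAt (Icc_mem_nhds ht.1 ht.2)
  choose α hα0 hα using hex
  have huniq : ∀ n m : ℕ, n ≤ m → EqOn (α n) (α m) (Ioo (-((n : ℝ) + 1)) ((n : ℝ) + 1)) := by
    intro n m hnm
    have hnm' : (n : ℝ) ≤ m := by exact_mod_cast hnm
    have hn0 : (0 : ℝ) ≤ n := Nat.cast_nonneg n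
    refine ODE_solution_unique_of_mem_Ioo (v := fun _ => g) (s := fun _ => univ) (K := K)
      (t₀ := 0) (fun t _ => hK.lipschitzOnWith) ⟨by linarith, by linarith⟩ ?_ ?_ ?_
    · intro t ht; exact ⟨hα n t ht, mem_univ _⟩
    · intro t ht
      exact ⟨hα m t ⟨by linarith [ht.1], by linarith [ht.2]⟩, mem_univ _⟩
    · rw [hα0, hα0]
  refine ⟨fun t => α ⌈|t|⌉₊ t, by simp [hα0], fun t => ?_⟩
  set N : ℕ := ⌈|t|⌉₊ + 1 with hN
  have hev : (fun s => α ⌈|s|⌉₊ s) =ᶠ[𝓝 t] α N := by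
    have h1 : ∀ᶠ s in 𝓝 t, |s| < |t| + 1 := by
      have : Tendsto (fun s : ℝ => |s|) (𝓝 t) (𝓝 |t|) := (continuous_abs.tendsto t)
      exact this.eventually (gt_mem_nhds (by linarith))
    filter_upwards [h1] with s hs
    have h2 : ⌈|s|⌉₊ ≤ N := by
      rw [hN]
      apply Nat.ceil_le.2
      push_cast
      have := Nat.le_ceil |t|
      linarith
    have h3 : s ∈ Ioo (-((⌈|s|⌉₊ : ℝ) + 1)) ((⌈|s|⌉₊ : ℝ) + 1) := by
      have := Nat.le_ceil |s|
      rw [mem_Ioo, ← abs_lt]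
      linarith
    exact huniq _ _ h2 h3
  have h4 : t ∈ Ioo (-((N : ℝ) + 1)) ((N : ℝ) + 1) := by
    have := Nat.le_ceil |t|
    rw [mem_Ioo, ← abs_lt, hN]
    push_cast
    linarith
  have h5 := (hα N t h4).congr_of_eventuallyEq hev
  have h6 : α ⌈|t|⌉₊ t = α N t := hev.eq_of_nhds
  simp only
  rw [h6]
  exact h5

/-- Global existence from an a priori bound on all solutions of time-rescaled equations. -/
theorem exists_global_of_bound [FiniteDimensional ℝ E] (F : E → E) (hF : ContDiff ℝ 1 F) (C : ℝ)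
    (hC : 0 ≤ C)
    (hbound : ∀ (m : ℝ → ℝ) (x : ℝ → E), Continuous m → (∀ t, 0 ≤ m t) →
      (∀ t, 0 ≤ t → HasDerivWithinAt x (m t • F (x t)) (Ici 0) t) →
      ∀ t, 0 ≤ t → ‖x t‖ ≤ C * ‖x 0‖) (x₀ : E) :
    ∃ φ : ℝ → E, φ 0 = x₀ ∧ ∀ t, 0 ≤ t → HasDerivWithinAt φ (F (φ t)) (Ici 0) t := by
  have : CompleteSpace E := FiniteDimensional.complete ℝ E
  set R : ℝ := C * ‖x₀‖ + 1 with hR
  have hR0 : 0 < R := by positivity
  let χ : ContDiffBump (0 : E) := ⟨R, R + 1, hR0, by linarith⟩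
  set g : E → E := fun x => χ x • F x with hg
  have hgc : HasCompactSupport g := χ.hasCompactSupport.smul_right
  have hgs : ContDiff ℝ 1 g := χ.contDiff.smul hF
  obtain ⟨K, hK⟩ := hgs.lipschitzWith_of_hasCompactSupport hgc one_ne_zero
  obtain ⟨L, hL⟩ := hgc.exists_bound_of_continuous hgs.continuous
  have hL0 : 0 ≤ L := (norm_nonneg _).trans (hL 0)
  obtain ⟨φ, hφ0, hφ⟩ := exists_global_of_lipschitz g K ⟨L, hL0⟩ hK (fun x => hL x) x₀
  have hφc : Continuous φ := by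
    rw [continuous_iff_continuousAt]
    exact fun t => (hφ t).continuousAt
  have hb := hbound (fun t => χ (φ t)) φ (χ.continuous.comp hφc) (fun t => χ.nonneg)
    (fun t _ => (hφ t).hasDerivWithinAt)
  refine ⟨φ, hφ0, fun t ht => ?_⟩
  have h1 := hb t ht
  rw [hφ0] at h1
  have h2 : χ (φ t) = 1 := by
    apply χ.one_of_mem_closedBall
    rw [mem_closedBall_zero_iff]
    show ‖φ t‖ ≤ R
    linarith
  have h3 := (hφ t).hasDerivWithinAt (s := Ici 0)
  rw [hg] at h3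
  simp only [h2, one_smul] at h3
  exact h3

end Pool.Agent.Arnold
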