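import Pool.Agent.Arnold.Transfer

/-!
# The homogenised Diophantine polynomial
-/

open Finset

namespace Pool.Agent.Arnold

variable {k : ℕ}

section ring

variable {R S : Type*} [CommRing R] [CommRing S]

/-- the polynomial `P (A, X / Y)`, homogenised to degree `g + 1` -/
def Hgen (P : MvPolynomial (Fin (k + 1)) ℤ) (g : ℕ) (A : R) (x : V k → R) : R :=
  ∑ m ∈ P.support, ((P.coeff m : ℤ) : R) * A ^ (m 0) * (∏ j : Fin k, x (vX j) ^ (m j.succ)) *
    x vY ^ (g + 1 - ∑ j : Fin k, m j.succ)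

lemma map_Hgen (φ : R →+* S) (P : MvPolynomial (Fin (k + 1)) ℤ) (g : ℕ) (A : R) (x : V k → R) :
    φ (Hgen P g A x) = Hgen P g (φ A) (fun i => φ (x i)) := by
  simp [Hgen]

lemma sum_succ_le {P : MvPolynomial (Fin (k + 1)) ℤ} {g : ℕ} (hg : P.totalDegree ≤ g + 1)
    {m : Fin (k + 1) →₀ ℕ} (hm : m ∈ P.support) : ∑ j : Fin k, m j.succ ≤ g + 1 := by
  refine le_trans ?_ ((MvPolynomial.le_totalDegree hm).trans hg)
  rw [Finsupp.sum_fintype _ _ (fun _ => rfl), Fin.sum_univ_succ]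
  exact Nat.le_add_left _ _

lemma Hgen_smul {P : MvPolynomial (Fin (k + 1)) ℤ} {g : ℕ} (hg : P.totalDegree ≤ g + 1) (A l : R)
    (x : V k → R) : Hgen P g A (fun i => l * x i) = l ^ (g + 1) * Hgen P g A x := by
  unfold Hgen
  rw [Finset.mul_sum]
  apply Finset.sum_congr rfl
  intro m hm
  have h1 : ∏ j : Fin k, (l * x (vX j)) ^ (m j.succ) =
      l ^ (∑ j : Fin k, m j.succ) * ∏ j : Fin k, x (vX j) ^ (m j.succ) := by
    rw [← Finset.prod_pow_eq_pow_sum, ← Finset.prod_mul_distrib]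
    exact Finset.prod_congr rfl fun j _ => mul_pow _ _ _
  have h2 : l ^ (g + 1) = l ^ (∑ j : Fin k, m j.succ) * l ^ (g + 1 - ∑ j : Fin k, m j.succ) := by
    rw [← pow_add, Nat.add_sub_cancel' (sum_succ_le hg hm)]
  rw [h1, h2, mul_pow]
  ring

/-- value at a state with `Y = 1` -/
lemma Hgen_one (P : MvPolynomial (Fin (k + 1)) ℤ) (g : ℕ) (A : R) (x : V k → R)
    (hY : x vY = 1) : Hgen P g A x =
      MvPolynomial.aeval (Fin.cons A (fun j => x (vX j)) : Fin (k + 1) → R) P := by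
  rw [MvPolynomial.aeval_def, MvPolynomial.eval₂_eq']
  unfold Hgen
  apply Finset.sum_congr rfl
  intro m _
  rw [Fin.prod_univ_succ]
  simp only [Fin.cons_zero, Fin.cons_succ, hY, one_pow, mul_one]
  simp [mul_assoc]

end ring

/-- the data of the vector field for the parameter value `a` -/
def Ha (P : MvPolynomial (Fin (k + 1)) ℤ) (g : ℕ) (a : ℕ) (x : V k → ℝ) : ℝ :=
  Hgen P g (a : ℝ) x

lemma goodH {P : MvPolynomial (Fin (k + 1)) ℤ} {g : ℕ} (hg : P.totalDegree ≤ g + 1) (a : ℕ) :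
    GoodH g (Ha P g a) := by
  refine ⟨?_, ?_, ?_⟩
  · unfold Ha Hgen
    fun_prop
  · intro x y h1 h2
    unfold Ha Hgen
    rw [h1]
    apply Finset.sum_congr rfl
    intro m _
    rw [Finset.prod_congr rfl fun j _ => by rw [h2 j]]
  · intro l x
    exact Hgen_smul hg _ _ _

/-- the value of the polynomial at real arguments -/
noncomputable def val (P : MvPolynomial (Fin (k + 1)) ℤ) (a : ℕ) (z : Fin k → ℝ) : ℝ :=
  MvPolynomial.aeval (Fin.cons (a : ℝ) z : Fin (k + 1) → ℝ) P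

lemma val_int (P : MvPolynomial (Fin (k + 1)) ℤ) (a : ℕ) (z : Fin k → ℤ) :
    val P a (fun j => (z j : ℝ)) =
      ((MvPolynomial.eval (Fin.cons (a : ℤ) z : Fin (k + 1) → ℤ) P : ℤ) : ℝ) := by
  unfold val
  have h := MvPolynomial.eval₂_comp_right (Int.castRingHom ℝ) (RingHom.id ℤ)
    (Fin.cons (a : ℤ) z : Fin (k + 1) → ℤ) P
  rw [MvPolynomial.aeval_def, MvPolynomial.eval, MvPolynomial.coe_eval₂Hom]
  rw [eq_intCast, MvPolynomial.map_id] at h
  rw [h]
  congr 1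
  funext i
  refine Fin.cases ?_ (fun j => ?_) i <;> simp

lemma Ha_e0 (P : MvPolynomial (Fin (k + 1)) ℤ) (g a : ℕ) (z : Fin k → ℤ) (β : ℝ) :
    Ha P g a (e0 z β) = val P a (fun j => (z j : ℝ)) := by
  unfold Ha val
  rw [Hgen_one _ _ _ _ rfl]
  rfl

lemma Ha_eq {P : MvPolynomial (Fin (k + 1)) ℤ} {g : ℕ} (hg : P.totalDegree ≤ g + 1) (a : ℕ)
    {x : V k → ℝ} (hY : x vY ≠ 0) :
    Ha P g a x = x vY ^ (g + 1) * val P a (fun j => x (vX j) / x vY) := by
  have h1 : x = fun i => x vY * (x i / x vY) := by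
    funext i; rw [mul_div_cancel₀ _ hY]
  have h2 : Ha P g a (fun i => x i / x vY) = val P a (fun j => x (vX j) / x vY) := by
    unfold Ha val
    rw [Hgen_one _ _ _ _ (div_self hY)]
  have h3 : Ha P g a (fun i => x vY * (x i / x vY)) =
      x vY ^ (g + 1) * Ha P g a (fun i => x i / x vY) :=
    Hgen_smul hg _ _ _
  rw [← h1] at h3
  rw [h3, h2]

/-- a polynomial is Lipschitz with polynomially bounded constants -/
lemma lip_poly {σ : Type*} [Fintype σ] (Q : MvPolynomial σ ℤ) : ∃ (C : ℝ) (G : ℕ), 0 ≤ C ∧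
    ∀ (z w : σ → ℝ) (η : ℝ), 0 ≤ η → η ≤ 1 → (∀ i, |z i - w i| ≤ η) →
      |MvPolynomial.aeval z Q - MvPolynomial.aeval w Q| ≤ C * η * (1 + ∑ i, z i ^ 2) ^ G ∧
      |MvPolynomial.aeval z Q| ≤ C * (1 + ∑ i, z i ^ 2) ^ G := by
  induction Q using MvPolynomial.induction_on with
  | C c =>
    refine ⟨|(c : ℝ)|, 0, abs_nonneg _, fun z w η hη hη1 hzw => ?_⟩
    constructor
    · simp only [MvPolynomial.aeval_C, sub_self, abs_zero]
      positivity
    · simp
  | add p q hp hq =>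
    obtain ⟨C1, G1, hC1, h1⟩ := hp
    obtain ⟨C2, G2, hC2, h2⟩ := hq
    refine ⟨C1 + C2, G1 + G2, by positivity, fun z w η hη hη1 hzw => ?_⟩
    obtain ⟨a1, b1⟩ := h1 z w η hη hη1 hzw
    obtain ⟨a2, b2⟩ := h2 z w η hη hη1 hzw
    have hS : 1 ≤ 1 + ∑ i, z i ^ 2 := by
      have := Finset.sum_nonneg (s := Finset.univ) (f := fun i => z i ^ 2)
        fun _ _ => sq_nonneg _
      linarith
    have hp1 : (1 + ∑ i, z i ^ 2) ^ G1 ≤ (1 + ∑ i, z i ^ 2) ^ (G1 + G2) :=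
      pow_le_pow_right₀ hS (Nat.le_add_right _ _)
    have hp2 : (1 + ∑ i, z i ^ 2) ^ G2 ≤ (1 + ∑ i, z i ^ 2) ^ (G1 + G2) :=
      pow_le_pow_right₀ hS (Nat.le_add_left _ _)
    rw [map_add, map_add]
    constructor
    · calc |MvPolynomial.aeval z p + MvPolynomial.aeval z q -
            (MvPolynomial.aeval w p + MvPolynomial.aeval w q)|
          = |(MvPolynomial.aeval z p - MvPolynomial.aeval w p) +
            (MvPolynomial.aeval z q - MvPolynomial.aeval w q)| := by congr 1; ring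
        _ ≤ _ := abs_add_le _ _
        _ ≤ C1 * η * (1 + ∑ i, z i ^ 2) ^ G1 + C2 * η * (1 + ∑ i, z i ^ 2) ^ G2 :=
            add_le_add a1 a2
        _ ≤ C1 * η * (1 + ∑ i, z i ^ 2) ^ (G1 + G2) +
            C2 * η * (1 + ∑ i, z i ^ 2) ^ (G1 + G2) := by gcongr
        _ = _ := by ring
    · calc _ ≤ _ := abs_add_le _ _
        _ ≤ C1 * (1 + ∑ i, z i ^ 2) ^ G1 + C2 * (1 + ∑ i, z i ^ 2) ^ G2 :=
            add_le_add b1 b2
        _ ≤ C1 * (1 + ∑ i, z i ^ 2) ^ (G1 + G2) +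
            C2 * (1 + ∑ i, z i ^ 2) ^ (G1 + G2) := by gcongr
        _ = _ := by ring
  | mul_X p i hp =>
    obtain ⟨C1, G1, hC1, h1⟩ := hp
    refine ⟨3 * C1, G1 + 1, by positivity, fun z w η hη hη1 hzw => ?_⟩
    obtain ⟨a1, b1⟩ := h1 z w η hη hη1 hzw
    set Sz : ℝ := 1 + ∑ i, z i ^ 2 with hSz
    have hS0 : ∀ i, z i ^ 2 ≤ ∑ i, z i ^ 2 := fun i =>
      Finset.single_le_sum (f := fun i => z i ^ 2) (fun _ _ => sq_nonneg _) (Finset.mem_univ i)
    have hS : 1 ≤ Sz := by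
      have := Finset.sum_nonneg (s := Finset.univ) (f := fun i => z i ^ 2)
        fun _ _ => sq_nonneg _
      linarith
    have hzi : |z i| ≤ Sz := by
      have := hS0 i
      rw [hSz]
      rcases abs_cases (z i) with ⟨h, _⟩ | ⟨h, _⟩ <;> rw [h] <;> nlinarith [sq_nonneg (z i - 1),
        sq_nonneg (z i + 1)]
    have hP : 0 ≤ Sz ^ G1 := by positivity
    have hw : |MvPolynomial.aeval w p| ≤ 2 * C1 * Sz ^ G1 := by
      have e1 : MvPolynomial.aeval w p = MvPolynomial.aeval z p -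
        (MvPolynomial.aeval z p - MvPolynomial.aeval w p) := by ring
      rw [e1]
      refine (abs_sub _ _).trans ?_
      have e2 : C1 * η * Sz ^ G1 ≤ C1 * 1 * Sz ^ G1 := by gcongr
      linarith
    rw [map_mul, map_mul, MvPolynomial.aeval_X, MvPolynomial.aeval_X]
    constructor
    · calc |MvPolynomial.aeval z p * z i - MvPolynomial.aeval w p * w i|
          = |(MvPolynomial.aeval z p - MvPolynomial.aeval w p) * z i +
            MvPolynomial.aeval w p * (z i - w i)| := by congr 1; ring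
        _ ≤ |(MvPolynomial.aeval z p - MvPolynomial.aeval w p) * z i| +
            |MvPolynomial.aeval w p * (z i - w i)| := abs_add_le _ _
        _ = |MvPolynomial.aeval z p - MvPolynomial.aeval w p| * |z i| +
            |MvPolynomial.aeval w p| * |z i - w i| := by rw [abs_mul, abs_mul]
        _ ≤ (C1 * η * Sz ^ G1) * Sz + (2 * C1 * Sz ^ G1) * η := by
            gcongr
            exact hzw i
        _ ≤ (C1 * η * Sz ^ G1) * Sz + (2 * C1 * Sz ^ G1) * η * Sz := by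
            have : (2 * C1 * Sz ^ G1) * η * 1 ≤ (2 * C1 * Sz ^ G1) * η * Sz := by gcongr
            linarith
        _ = _ := by ring
    · rw [abs_mul]
      calc |MvPolynomial.aeval z p| * |z i| ≤ (C1 * Sz ^ G1) * Sz := by gcongr
        _ = C1 * Sz ^ (G1 + 1) := by ring
        _ ≤ 3 * C1 * Sz ^ (G1 + 1) := by
            have : 0 ≤ C1 * Sz ^ (G1 + 1) := by positivity
            linarith

/-- If the polynomial has no integer zero for the parameter value `a`, then `NoZero` holds. -/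
theorem exists_noZero (P : MvPolynomial (Fin (k + 1)) ℤ) : ∃ G : ℕ, ∀ g : ℕ, G ≤ g + 1 →
    P.totalDegree ≤ g + 1 → ∀ a : ℕ,
    (∀ z : Fin k → ℤ, MvPolynomial.eval (Fin.cons (a : ℤ) z : Fin (k + 1) → ℤ) P ≠ 0) →
    ∃ C, NoZero g (Ha P g a) C := by
  obtain ⟨C, G, hC, hlip⟩ := lip_poly P
  refine ⟨G, fun g hG hg a hz => ⟨2 * (C * (1 + (a : ℝ) ^ 2) ^ G), by positivity,
    fun x hY => ?_⟩⟩
  set z : Fin k → ℝ := fun j => x (vX j) / x vY with hzdef
  set w : Fin k → ℤ := fun j => round (z j) with hwdef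
  have hw1 : 1 ≤ |val P a (fun j => (w j : ℝ))| := by
    rw [val_int]
    have := Int.one_le_abs (hz w)
    exact_mod_cast this
  by_cases hv : 1 / 2 ≤ |val P a z|
  · left
    rw [Ha_eq hg a hY]
    have h1 : 1 ≤ 4 * val P a z ^ 2 := by
      have : (1 / 2) ^ 2 ≤ |val P a z| ^ 2 := pow_le_pow_left₀ (by norm_num) hv 2
      rw [sq_abs] at this
      linarith
    have h2 : 0 ≤ x vY ^ (2 * (g + 1)) := by
      rw [pow_mul]; positivity
    calc x vY ^ (2 * (g + 1)) = x vY ^ (2 * (g + 1)) * 1 := (mul_one _).symm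
      _ ≤ x vY ^ (2 * (g + 1)) * (4 * val P a z ^ 2) := mul_le_mul_of_nonneg_left h1 h2
      _ = _ := by
        rw [pow_mul']
        ring
  · right
    have hv := not_le.1 hv
    have hne : Nonempty (Fin k) := by
      rcases isEmpty_or_nonempty (Fin k) with hE | hN
      · exfalso
        have h1 : z = fun j => (w j : ℝ) := funext fun j => hE.elim j
        rw [h1] at hv
        linarith
      · exact hN
    obtain ⟨j, hj⟩ := Finite.exists_max (fun j : Fin k => |z j - w j|)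
    set η := |z j - w j| with hη
    have hη1 : η ≤ 1 / 2 := abs_sub_round (z j)
    have hη0 : 0 ≤ η := abs_nonneg _
    have h1 := (hlip (Fin.cons (a : ℝ) z : Fin (k + 1) → ℝ)
      (Fin.cons (a : ℝ) (fun j => (w j : ℝ)) : Fin (k + 1) → ℝ) η hη0 (by linarith)
      (fun i => by
        refine Fin.cases ?_ (fun i => ?_) i
        · simp [hη0]
        · simpa using hj i)).1
    have h2 : |val P a z - val P a (fun j => (w j : ℝ))| ≤ C * η *
        (1 + ∑ i, (Fin.cons (a : ℝ) z : Fin (k + 1) → ℝ) i ^ 2) ^ G := h1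
    have h3 : 1 / 2 ≤ |val P a z - val P a (fun j => (w j : ℝ))| := by
      have := abs_sub_abs_le_abs_sub (val P a (fun j => (w j : ℝ))) (val P a z)
      rw [abs_sub_comm] at this
      linarith
    have h4 : ∑ i, (Fin.cons (a : ℝ) z : Fin (k + 1) → ℝ) i ^ 2 = (a : ℝ) ^ 2 +
        ∑ j, z j ^ 2 := by
      rw [Fin.sum_univ_succ]
      simp
    rw [h4] at h2
    have hz0 : 0 ≤ ∑ j, z j ^ 2 := Finset.sum_nonneg fun _ _ => sq_nonneg _
    have hY2 : 0 < x vY ^ 2 := by positivity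
    -- the norm controls `1 + ∑ z²`
    have h5 : (1 + ∑ j, z j ^ 2) * x vY ^ 2 ≤ nrm x := by
      rw [nrm_eq, add_mul, one_mul, Finset.sum_mul]
      have e1 : ∀ j, z j ^ 2 * x vY ^ 2 = x (vX j) ^ 2 := fun j => by
        rw [hzdef]
        field_simp
      rw [Finset.sum_congr rfl fun j _ => e1 j]
      have e2 : 0 ≤ ∑ j : Fin k, x (vu j) ^ 2 := Finset.sum_nonneg fun _ _ => sq_nonneg _
      have e3 : 0 ≤ ∑ j : Fin k, x (vv j) ^ 2 := Finset.sum_nonneg fun _ _ => sq_nonneg _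
      nlinarith [sq_nonneg (x vB), sq_nonneg (x vc), sq_nonneg (x vs)]
    have h6 : 1 + ((a : ℝ) ^ 2 + ∑ j, z j ^ 2) ≤ (1 + (a : ℝ) ^ 2) * (1 + ∑ j, z j ^ 2) := by
      nlinarith [mul_nonneg (sq_nonneg (a : ℝ)) hz0]
    have h7 : (1 + ((a : ℝ) ^ 2 + ∑ j, z j ^ 2)) ^ G ≤
        (1 + (a : ℝ) ^ 2) ^ G * (1 + ∑ j, z j ^ 2) ^ (g + 1) := by
      calc (1 + ((a : ℝ) ^ 2 + ∑ j, z j ^ 2)) ^ G
          ≤ ((1 + (a : ℝ) ^ 2) * (1 + ∑ j, z j ^ 2)) ^ G :=
            pow_le_pow_left₀ (by positivity) h6 _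
        _ = (1 + (a : ℝ) ^ 2) ^ G * (1 + ∑ j, z j ^ 2) ^ G := mul_pow _ _ _
        _ ≤ _ := by
            apply mul_le_mul_of_nonneg_left _ (by positivity)
            exact pow_le_pow_right₀ (by linarith) hG
    have h8 : 1 ≤ 2 * (C * (1 + (a : ℝ) ^ 2) ^ G) * η * (1 + ∑ j, z j ^ 2) ^ (g + 1) := by
      have : C * η * (1 + ((a : ℝ) ^ 2 + ∑ j, z j ^ 2)) ^ G ≤
          C * η * ((1 + (a : ℝ) ^ 2) ^ G * (1 + ∑ j, z j ^ 2) ^ (g + 1)) := by gcongr
      have h9 : 2 * (C * (1 + (a : ℝ) ^ 2) ^ G) * η * (1 + ∑ j, z j ^ 2) ^ (g + 1) =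
        2 * (C * η * ((1 + (a : ℝ) ^ 2) ^ G * (1 + ∑ j, z j ^ 2) ^ (g + 1))) := by ring
      rw [h9]
      linarith
    refine ⟨j, w j, ?_, hη1, ?_⟩
    · rcases hη0.lt_or_eq with h | h
      · exact h
      · exfalso
        rw [← h] at h8
        simp at h8
        linarith
    · show (x vY ^ 2) ^ (g + 1) ≤ 2 * (C * (1 + (a : ℝ) ^ 2) ^ G) * η * nrm x ^ (g + 1)
      calc (x vY ^ 2) ^ (g + 1) = 1 * (x vY ^ 2) ^ (g + 1) := (one_mul _).symm
        _ ≤ (2 * (C * (1 + (a : ℝ) ^ 2) ^ G) * η * (1 + ∑ j, z j ^ 2) ^ (g + 1)) *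
            (x vY ^ 2) ^ (g + 1) := by gcongr
        _ = 2 * (C * (1 + (a : ℝ) ^ 2) ^ G) * η *
            ((1 + ∑ j, z j ^ 2) * x vY ^ 2) ^ (g + 1) := by rw [mul_pow]; ring
        _ ≤ _ := by
          apply mul_le_mul_of_nonneg_left _ (by positivity)
          exact pow_le_pow_left₀ (by positivity) h5 _

end Pool.Agent.Arnold
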