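import Pool.Agent.Arnold.Bound

/-!
# Instability when the polynomial has an integer zero
-/

open Finset Set Filter

namespace Pool.Agent.Arnold

variable {k : ℕ} {g : ℕ} {Hf : (V k → ℝ) → ℝ}

lemma abs_sin_nat_mul (n : ℕ) (θ : ℝ) : |Real.sin (n * θ)| ≤ n * |Real.sin θ| := by
  induction n with
  | zero => simp
  | succ n ih =>
    have e : ((n + 1 : ℕ) : ℝ) * θ = n * θ + θ := by push_cast; ring
    rw [e, Real.sin_add]
    have h1 : |Real.sin (n * θ) * Real.cos θ| ≤ n * |Real.sin θ| := by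
      rw [abs_mul]
      calc |Real.sin (n * θ)| * |Real.cos θ| ≤ |Real.sin (n * θ)| * 1 :=
            mul_le_mul_of_nonneg_left (Real.abs_cos_le_one θ) (abs_nonneg _)
        _ ≤ n * |Real.sin θ| := by rw [mul_one]; exact ih
    have h2 : |Real.cos (n * θ) * Real.sin θ| ≤ |Real.sin θ| := by
      rw [abs_mul]
      calc |Real.cos (n * θ)| * |Real.sin θ| ≤ 1 * |Real.sin θ| :=
            mul_le_mul_of_nonneg_right (Real.abs_cos_le_one _) (abs_nonneg _)
        _ = _ := one_mul _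
    calc |Real.sin (n * θ) * Real.cos θ + Real.cos (n * θ) * Real.sin θ|
        ≤ |Real.sin (n * θ) * Real.cos θ| + |Real.cos (n * θ) * Real.sin θ| := abs_add_le _ _
      _ ≤ n * |Real.sin θ| + |Real.sin θ| := add_le_add h1 h2
      _ = _ := by push_cast; ring

lemma sin_int_mul_sq (n : ℤ) (θ : ℝ) : Real.sin (n * θ) ^ 2 ≤ (n : ℝ) ^ 2 * Real.sin θ ^ 2 := by
  have h : |Real.sin (n * θ)| ≤ |(n : ℝ)| * |Real.sin θ| := by
    rcases Int.eq_nat_or_neg n with ⟨m, rfl | rfl⟩
    · have := abs_sin_nat_mul m θ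
      simpa using this
    · have := abs_sin_nat_mul m θ
      push_cast
      rw [neg_mul, Real.sin_neg, abs_neg, abs_neg]
      simpa using this
  calc Real.sin (n * θ) ^ 2 = |Real.sin (n * θ)| ^ 2 := (sq_abs _).symm
    _ ≤ (|(n : ℝ)| * |Real.sin θ|) ^ 2 := pow_le_pow_left₀ (abs_nonneg _) h 2
    _ = _ := by rw [mul_pow, sq_abs, sq_abs]

/-- the initial direction -/
noncomputable def e0 (n : Fin k → ℤ) (β : ℝ) : V k → ℝ
  | Sum.inl 0 => 1
  | Sum.inl 1 => β
  | Sum.inl 2 => 1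
  | Sum.inl 3 => 0
  | Sum.inr (0, j) => n j
  | Sum.inr (1, _) => 1
  | Sum.inr (2, _) => 0

/-- `∑ n_j²` -/
noncomputable def Qn (n : Fin k → ℤ) : ℝ := ∑ j, (n j : ℝ) ^ 2

lemma Qn_nonneg (n : Fin k → ℤ) : 0 ≤ Qn n := Finset.sum_nonneg fun _ _ => sq_nonneg _

lemma nrm_e0 (n : Fin k → ℤ) (β : ℝ) : nrm (e0 n β) = 2 + β ^ 2 + Qn n + k := by
  rw [nrm_eq]
  simp only [e0, Qn]
  simp
  ring

lemma Efun_e0 (n : Fin k → ℤ) (β : ℝ) : Efun (e0 n β) = 1 := by
  unfold Efun
  simp [e0]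

lemma Vfun_e0 (n : Fin k → ℤ) (β θ : ℝ) :
    Vfun (rotst (e0 n β) θ) ≤ Qn n * Real.sin θ ^ 2 := by
  unfold Vfun Qn
  rw [Finset.sum_mul]
  apply Finset.sum_le_sum
  intro j _
  have h : rotst (e0 n β) θ (vv j) = Real.sin (n j * θ) := by
    simp [rotst, e0]
  rw [h]
  exact sin_int_mul_sq _ _

lemma Wt_e0 (n : Fin k → ℤ) (β θ : ℝ) :
    Wt (e0 n β) θ = β ^ 2 / (β ^ 2 + Real.sin θ ^ 2) := by
  unfold Wt hfun
  simp [rotst, e0]

lemma rotst_smul {l : ℝ} (hl : l ≠ 0) (x : V k → ℝ) (θ : ℝ) :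
    rotst (fun i => l * x i) θ = fun i => l * rotst x θ i := by
  funext i
  rcases i with i | ⟨i, j⟩
  · fin_cases i <;> simp only [rotst] <;> ring
  · have : l * x (vX j) / (l * x vY) = x (vX j) / x vY := mul_div_mul_left _ _ hl
    fin_cases i
    · simp only [rotst]
    · simp only [rotst, this]; ring
    · simp only [rotst, this]; ring

lemma delta_smul (hH : GoodH g Hf) {l : ℝ} (hl : l ≠ 0) (x : V k → ℝ) (θ : ℝ) :
    delta g Hf (fun i => l * x i) θ = delta g Hf x θ := by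
  unfold delta
  rw [rotst_smul hl, hH.hom, Dfun_smul, om_smul]
  exact mul_div_mul_left _ _ (pow_ne_zero _ hl)

lemma J_smul (hH : GoodH g Hf) {l : ℝ} (hl : l ≠ 0) (x : V k → ℝ) (τ : ℝ) :
    J g Hf (fun i => l * x i) τ = J g Hf x τ := by
  unfold J
  simp_rw [delta_smul hH hl]

/-- lower bound for the growth rate -/
noncomputable def ell (N Q β θ : ℝ) : ℝ := β ^ 2 / (β ^ 2 + Real.sin θ ^ 2) / N - 4 * Q * β ^ 2

lemma ell_le (hH : GoodH g Hf) (n : Fin k → ℤ) {β : ℝ} (hβ : 0 < β) (hβ1 : β ≤ 1)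
    (hz : Hf (e0 n β) = 0) (θ : ℝ) :
    ell ((3 + Qn n + k) ^ (k + g + 1)) (Qn n) β θ ≤ - delta g Hf (e0 n β) θ := by
  have hY : e0 n β vY ≠ 0 := by simp [e0]
  have hB : e0 n β vB ≠ 0 := by simp [e0, hβ.ne']
  rw [neg_delta_eq hH hY hB, hz, Efun_e0, Wt_e0]
  have hQ := Qn_nonneg n
  have hY1 : e0 n β vY = 1 := rfl
  rw [hY1]
  set n0 := nrm (e0 n β) with hn0
  have hn0e : n0 = 2 + β ^ 2 + Qn n + k := nrm_e0 n β
  have hk : (0 : ℝ) ≤ k := Nat.cast_nonneg k
  have hn01 : 1 ≤ n0 := by rw [hn0e]; nlinarith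
  have hn0pos : 0 < n0 := by linarith
  have hn0n1 : n0 ≤ 3 + Qn n + k := by rw [hn0e]; nlinarith
  set W := β ^ 2 / (β ^ 2 + Real.sin θ ^ 2) with hW
  have hden : 0 < β ^ 2 + Real.sin θ ^ 2 := by positivity
  have hW0 : 0 ≤ W := by positivity
  have hWs : W * Real.sin θ ^ 2 ≤ β ^ 2 := by
    rw [hW, div_mul_eq_mul_div, div_le_iff₀ hden]
    nlinarith [sq_nonneg β, sq_nonneg (Real.sin θ)]
  have hV := Vfun_e0 n β θ
  have h1 : W / (3 + Qn n + k) ^ (k + g + 1) ≤ W / n0 ^ (k + g + 1) := by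
    apply div_le_div_of_nonneg_left hW0 (by positivity)
    exact pow_le_pow_left₀ hn0pos.le hn0n1 _
  have h2 : W * (4 * Vfun (rotst (e0 n β) θ) * n0 ^ (k + g)) / n0 ^ (k + g + 1) ≤
      4 * Qn n * β ^ 2 := by
    have h3 : W * (4 * Vfun (rotst (e0 n β) θ) * n0 ^ (k + g)) / n0 ^ (k + g + 1) =
        4 * (W * Vfun (rotst (e0 n β) θ)) / n0 := by
      field_simp
      ring
    rw [h3]
    have h4 : W * Vfun (rotst (e0 n β) θ) ≤ Qn n * β ^ 2 := by
      calc W * Vfun (rotst (e0 n β) θ) ≤ W * (Qn n * Real.sin θ ^ 2) :=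
            mul_le_mul_of_nonneg_left hV hW0
        _ = Qn n * (W * Real.sin θ ^ 2) := by ring
        _ ≤ _ := mul_le_mul_of_nonneg_left hWs hQ
    have h5 : 0 ≤ 4 * (W * Vfun (rotst (e0 n β) θ)) := by
      have := Vfun_nonneg (rotst (e0 n β) θ)
      positivity
    calc 4 * (W * Vfun (rotst (e0 n β) θ)) / n0 ≤ 4 * (W * Vfun (rotst (e0 n β) θ)) / 1 :=
          div_le_div_of_nonneg_left h5 one_pos hn01
      _ ≤ _ := by rw [div_one]; linarith
  unfold ell
  rw [← hW]
  have h6 : W * ((1 * (1 ^ (2 * (g + 1)) - 4 * (0 : ℝ) ^ 2) -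
      4 * Vfun (rotst (e0 n β) θ) * n0 ^ (k + g)) / n0 ^ (k + g + 1)) =
      W / n0 ^ (k + g + 1) - W * (4 * Vfun (rotst (e0 n β) θ) * n0 ^ (k + g)) /
        n0 ^ (k + g + 1) := by
    rw [one_pow]
    ring
  rw [h6]
  linarith

lemma ell_integral {N Q β : ℝ} (hN : 1 ≤ N) (hQ : 0 ≤ Q) (hβ : β = 1 / (32 * N * (Q + 1))) :
    β / (100 * N) * Real.pi < ∫ θ in (0 : ℝ)..Real.pi, ell N Q β θ := by
  have hpi := Real.pi_pos
  have hpi2 := Real.pi_lt_d2
  have hpi3 := Real.pi_gt_three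
  have hβ0 : 0 < β := by rw [hβ]; positivity
  have hβ1 : β ≤ 1 := by
    rw [hβ, div_le_one (by positivity)]
    nlinarith
  have hNpos : 0 < N := by linarith
  have hcW : Continuous fun θ : ℝ => β ^ 2 / (β ^ 2 + Real.sin θ ^ 2) / N := by
    apply Continuous.div_const
    apply Continuous.div continuous_const (by fun_prop)
    intro θ; positivity
  have h1 : ∫ θ in (0 : ℝ)..Real.pi, ell N Q β θ =
      (∫ θ in (0 : ℝ)..Real.pi, β ^ 2 / (β ^ 2 + Real.sin θ ^ 2) / N) -
        Real.pi * (4 * Q * β ^ 2) := by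
    unfold ell
    rw [intervalIntegral.integral_sub (hcW.intervalIntegrable _ _) intervalIntegrable_const,
      intervalIntegral.integral_const, sub_zero, smul_eq_mul]
  have h2 : β / 2 / N ≤ ∫ θ in (0 : ℝ)..Real.pi, β ^ 2 / (β ^ 2 + Real.sin θ ^ 2) / N := by
    have h3 : ∫ θ in (0 : ℝ)..β, β ^ 2 / (β ^ 2 + Real.sin θ ^ 2) / N ≤
        ∫ θ in (0 : ℝ)..Real.pi, β ^ 2 / (β ^ 2 + Real.sin θ ^ 2) / N := by
      apply intervalIntegral.integral_mono_interval le_rfl hβ0.le (by linarith)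
      · filter_upwards with θ
        show (0 : ℝ) ≤ _
        positivity
      · exact hcW.intervalIntegrable _ _
    have h4 : ∫ _θ in (0 : ℝ)..β, (1 / 2 / N : ℝ) ≤
        ∫ θ in (0 : ℝ)..β, β ^ 2 / (β ^ 2 + Real.sin θ ^ 2) / N := by
      apply intervalIntegral.integral_mono_on hβ0.le intervalIntegrable_const
        (hcW.intervalIntegrable _ _)
      intro θ hθ
      apply div_le_div_of_nonneg_right _ hNpos.le
      rw [div_le_div_iff₀ (by norm_num) (by positivity)]
      have h5 : Real.sin θ ^ 2 ≤ β ^ 2 := by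
        have h6 : |Real.sin θ| ≤ |θ| := Real.abs_sin_le_abs
        have h7 : |θ| ≤ β := by rw [abs_of_nonneg hθ.1]; exact hθ.2
        calc Real.sin θ ^ 2 = |Real.sin θ| ^ 2 := (sq_abs _).symm
          _ ≤ β ^ 2 := pow_le_pow_left₀ (abs_nonneg _) (h6.trans h7) 2
      linarith
    rw [intervalIntegral.integral_const, sub_zero, smul_eq_mul] at h4
    calc β / 2 / N = β * (1 / 2 / N) := by ring
      _ ≤ _ := h4.trans h3
  rw [h1]
  -- `4 π Q β² ≤ π β / (8 N)`
  have h8 : Q * β ≤ 1 / (32 * N) := by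
    rw [hβ, mul_one_div, div_le_div_iff₀ (by positivity) (by positivity)]
    nlinarith
  have h9 : Real.pi * (4 * Q * β ^ 2) ≤ Real.pi * (β / (8 * N)) := by
    apply mul_le_mul_of_nonneg_left _ hpi.le
    calc 4 * Q * β ^ 2 = 4 * β * (Q * β) := by ring
      _ ≤ 4 * β * (1 / (32 * N)) := mul_le_mul_of_nonneg_left h8 (by positivity)
      _ = β / (8 * N) := by field_simp; ring
  have h10 : β / (100 * N) * Real.pi + Real.pi * (β / (8 * N)) < β / 2 / N := by
    have h11 : β / (100 * N) * Real.pi + Real.pi * (β / (8 * N)) = β / N * (Real.pi * (27 / 200)) := by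
      field_simp
      ring
    have h12 : β / 2 / N = β / N * (1 / 2) := by ring
    rw [h11, h12]
    apply mul_lt_mul_of_pos_left _ (by positivity)
    linarith
  linarith

lemma continuous_ell {N Q β : ℝ} (hβ : 0 < β) : Continuous (ell N Q β) := by
  unfold ell
  apply Continuous.sub _ continuous_const
  apply Continuous.div_const
  apply Continuous.div continuous_const (by fun_prop)
  intro θ; positivity

lemma periodic_ell (N Q β : ℝ) : Function.Periodic (ell N Q β) Real.pi := by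
  intro θ
  unfold ell
  rw [Real.sin_add_pi]
  ring

/-- If the homogenised polynomial vanishes at the integer point `n`, there is a radius which
solutions starting arbitrarily close to the origin do not respect. -/
theorem unstable (hH : GoodH g Hf) (n : Fin k → ℤ) (hz : ∀ β, Hf (e0 n β) = 0) :
    ∃ ε > 0, ∀ δ > 0, ∃ x₀ : V k → ℝ, nrm x₀ < δ ∧
      ∀ x : ℝ → V k → ℝ, x 0 = x₀ → IsPath g Hf (fun _ => 1) x → ¬ ∀ t, 0 ≤ t → nrm (x t) < ε := by
  set N : ℝ := (3 + Qn n + k) ^ (k + g + 1) with hN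
  have hQ := Qn_nonneg n
  have hk : (0 : ℝ) ≤ k := Nat.cast_nonneg k
  have hN1 : 1 ≤ N := one_le_pow₀ (by linarith)
  have hN0 : 0 < N := by linarith
  set β : ℝ := 1 / (32 * N * (Qn n + 1)) with hβ
  have hβ0 : 0 < β := by rw [hβ]; positivity
  have hβ1 : β ≤ 1 := by
    rw [hβ, div_le_one (by positivity)]
    nlinarith
  set n0 : ℝ := nrm (e0 n β) with hn0
  have hn0e : n0 = 2 + β ^ 2 + Qn n + k := nrm_e0 n β
  have hn0pos : 0 < n0 := by rw [hn0e]; positivity
  set κ : ℝ := β / (100 * N) with hκ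
  have hκ0 : 0 < κ := by positivity
  have hint := ell_integral hN1 hQ hβ
  set G : ℝ → ℝ := fun τ => ∫ θ in (0 : ℝ)..τ, (ell N (Qn n) β θ - κ) with hG
  have hellc := continuous_ell (N := N) (Q := Qn n) hβ0
  have hGtend : Tendsto G atTop atTop := by
    apply Function.Periodic.tendsto_atTop_intervalIntegral_of_pos
      (g := fun θ => ell N (Qn n) β θ - κ) (T := Real.pi)
    · intro θ
      simp only
      rw [periodic_ell N (Qn n) β θ]
    · rw [intervalIntegral.integral_sub (hellc.intervalIntegrable _ _) intervalIntegrable_const,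
        intervalIntegral.integral_const, sub_zero, smul_eq_mul]
      linarith
    · exact Real.pi_pos
  have hGc : Continuous G := by
    apply continuous_iff_continuousAt.2
    intro τ
    have hc : Continuous fun θ => ell N (Qn n) β θ - κ := hellc.sub continuous_const
    exact (intervalIntegral.integral_hasDerivAt_right (hc.intervalIntegrable 0 τ)
      (hc.stronglyMeasurableAtFilter _ _) hc.continuousAt).continuousAt
  set ε : ℝ := κ * β ^ 2 / n0 ^ 2 with hε
  have hε0 : 0 < ε := by positivity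
  refine ⟨ε, hε0, fun δ hδ => ?_⟩
  -- scale factor
  obtain ⟨l, hl0, hl⟩ : ∃ l : ℝ, 0 < l ∧ l ^ 2 * n0 < δ := by
    refine ⟨Real.sqrt (δ / (2 * n0)), Real.sqrt_pos.2 (by positivity), ?_⟩
    rw [Real.sq_sqrt (by positivity)]
    have : δ / (2 * n0) * n0 = δ / 2 := by field_simp
    linarith
  refine ⟨fun i => l * e0 n β i, by rw [nrm_smul]; exact hl, fun x hx0 hx hsmall => ?_⟩
  have hY : x 0 vY ≠ 0 := by rw [hx0]; simp [e0, hl0.ne']
  have hB : x 0 vB ≠ 0 := by rw [hx0]; simp [e0, hl0.ne', hβ0.ne']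
  have hrep := hx.rep hH hY
  have hlam := hx.lam_eq hH hY hB
  set L := IsPath.Lam g Hf (fun _ => 1) x with hL
  set O := IsPath.Om g (fun _ => 1) x with hO
  have hnx0 : nrm (x 0) = l ^ 2 * n0 := by rw [hx0, nrm_smul]
  have hnrm : ∀ t, 0 ≤ t → nrm (x t) = Real.exp (-(L t)) ^ 2 * (l ^ 2 * n0) := by
    intro t ht
    rw [hx.nrm_path hH t ht, hnx0, ← Real.exp_nat_mul]
    congr 2
    push_cast
    ring
  have hYt : ∀ t, 0 ≤ t → x t vY = Real.exp (-(L t)) * l := by
    intro t ht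
    rw [hrep t ht]
    show Real.exp (-(L t)) * x 0 vY = _
    rw [hx0]
    simp [e0]
  have hBt : ∀ t, 0 ≤ t → x t vB = Real.exp (-(L t)) * (l * β) := by
    intro t ht
    rw [hrep t ht]
    show Real.exp (-(L t)) * x 0 vB = _
    rw [hx0]
    simp [e0]
  -- speed of the base angle from below
  have hom : ∀ t, 0 ≤ t → β ^ 2 / n0 ^ 2 * nrm (x t) ^ (k + g + 3) ≤ om g (x t) := by
    intro t ht
    unfold om hfun
    have h1 : β ^ 2 / n0 ^ 2 * nrm (x t) ^ 2 = x t vY ^ 2 * x t vB ^ 2 := by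
      rw [hnrm t ht, hYt t ht, hBt t ht]
      field_simp
    have h2 : β ^ 2 / n0 ^ 2 * nrm (x t) ^ (k + g + 3) =
        x t vY ^ 2 * x t vB ^ 2 * nrm (x t) ^ (k + g + 1) := by
      rw [← h1]; ring
    rw [h2]
    apply mul_le_mul_of_nonneg_right _ (pow_nonneg (nrm_nonneg _) _)
    apply mul_le_mul_of_nonneg_left _ (sq_nonneg _)
    nlinarith [sq_nonneg (x t vs)]
  -- background damping is small
  have hMb : ∀ t, 0 ≤ t → IsPath.Mb g (fun _ => 1) x t ≤ κ * O t := by
    intro t ht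
    have h1 : κ * O t = prim (fun t => κ * (1 * om g (x t))) t := (prim_const_mul _ _ _).symm
    rw [h1]
    unfold IsPath.Mb
    apply prim_mono hx.mb_cont (continuousOn_const.mul hx.om_cont) _ ht
    intro s hs
    show 1 * nrm (x s) ^ (k + g + 4) ≤ κ * (1 * om g (x s))
    rw [one_mul, one_mul]
    have h2 := hom s hs
    have h3 : nrm (x s) ≤ ε := (hsmall s hs).le
    have h4 : nrm (x s) ^ (k + g + 4) = nrm (x s) * nrm (x s) ^ (k + g + 3) := by ring
    rw [h4]
    calc nrm (x s) * nrm (x s) ^ (k + g + 3) ≤ ε * nrm (x s) ^ (k + g + 3) :=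
          mul_le_mul_of_nonneg_right h3 (pow_nonneg (nrm_nonneg _) _)
      _ = κ * (β ^ 2 / n0 ^ 2 * nrm (x s) ^ (k + g + 3)) := by rw [hε]; ring
      _ ≤ κ * om g (x s) := mul_le_mul_of_nonneg_left h2 hκ0.le
  -- growth
  have hgrow : ∀ t, 0 ≤ t → G (O t) ≤ -(L t) := by
    intro t ht
    have hO0 : 0 ≤ O t := hx.Om_nonneg ht
    have h1 : G (O t) = (∫ θ in (0 : ℝ)..(O t), ell N (Qn n) β θ) - κ * O t := by
      rw [hG]
      simp only
      rw [intervalIntegral.integral_sub (hellc.intervalIntegrable _ _) intervalIntegrable_const,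
        intervalIntegral.integral_const, sub_zero, smul_eq_mul]
      ring
    have h2 : ∫ θ in (0 : ℝ)..(O t), ell N (Qn n) β θ ≤ J g Hf (x 0) (O t) := by
      rw [hx0, J_smul hH hl0.ne']
      unfold J
      apply intervalIntegral.integral_mono_on hO0 (hellc.intervalIntegrable _ _)
      · exact (continuous_delta hH (by simp [e0]) (by simp [e0, hβ0.ne'])).neg.intervalIntegrable _ _
      · intro θ _
        exact ell_le hH n hβ0 hβ1 (hz β) θ
    have h3 := hlam t ht
    have h4 := hMb t ht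
    linarith
  -- upper bound for the growth
  obtain ⟨B1, hB1⟩ : ∃ B1 : ℝ, ∀ t, 0 ≤ t → -(L t) ≤ B1 := by
    refine ⟨Real.log (ε / (l ^ 2 * n0) + 1), fun t ht => ?_⟩
    have h1 := hsmall t ht
    rw [hnrm t ht] at h1
    have h2 : 0 < l ^ 2 * n0 := by positivity
    have h3 : Real.exp (-(L t)) ^ 2 < ε / (l ^ 2 * n0) := by
      rw [lt_div_iff₀ h2]; exact h1
    rw [Real.le_log_iff_exp_le (by positivity)]
    have h4 := Real.exp_pos (-(L t))
    nlinarith [sq_nonneg (Real.exp (-(L t)) - 1)]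
  -- the base angle stays bounded
  obtain ⟨A, hA⟩ := (tendsto_atTop.1 hGtend (B1 + 1)).exists_forall_of_atTop
  have hOb : ∀ t, 0 ≤ t → O t < max A 0 := by
    intro t ht
    by_contra hcon
    push Not at hcon
    have h1 := hA (O t) ((le_max_left _ _).trans hcon)
    have h2 := hgrow t ht
    have h3 := hB1 t ht
    linarith
  -- hence the solution stays away from the origin
  obtain ⟨g0, hg0⟩ : ∃ g0 : ℝ, ∀ τ ∈ Icc (0 : ℝ) (max A 0), g0 ≤ G τ := by
    obtain ⟨τ0, _, h⟩ := isCompact_Icc.exists_isMinOn (nonempty_Icc.2 (le_max_right A 0))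
      hGc.continuousOn
    exact ⟨G τ0, fun τ hτ => h hτ⟩
  set c : ℝ := β ^ 2 / n0 ^ 2 * (Real.exp g0 ^ 2 * (l ^ 2 * n0)) ^ (k + g + 3) with hc
  have hc0 : 0 < c := by
    have := Real.exp_pos g0
    positivity
  have hOm : ∀ t, 0 ≤ t → c * t ≤ O t := by
    intro t ht
    have h1 : ∀ s, 0 ≤ s → c ≤ 1 * om g (x s) := by
      intro s hs
      rw [one_mul]
      refine le_trans ?_ (hom s hs)
      apply mul_le_mul_of_nonneg_left _ (by positivity)
      have h2 : g0 ≤ -(L s) :=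
        (hg0 _ ⟨hx.Om_nonneg hs, (hOb s hs).le⟩).trans (hgrow s hs)
      have h3 : Real.exp g0 ≤ Real.exp (-(L s)) := Real.exp_le_exp.2 h2
      have h4 := Real.exp_pos g0
      apply pow_le_pow_left₀ (by positivity)
      rw [hnrm s hs]
      apply mul_le_mul_of_nonneg_right _ (by positivity)
      exact pow_le_pow_left₀ h4.le h3 2
    have h5 : prim (fun _ => c) t = c * t := by
      unfold prim
      rw [intervalIntegral.integral_const, sub_zero, smul_eq_mul, mul_comm]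
    rw [← h5]
    exact prim_mono continuousOn_const hx.om_cont h1 ht
  have h1 := hOm (max A 0 / c) (by positivity)
  have h2 := hOb (max A 0 / c) (by positivity)
  have h3 : c * (max A 0 / c) = max A 0 := by field_simp
  linarith

end Pool.Agent.Arnold
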