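import Pool.Agent.Arnold.Defs
import Pool.Agent.Arnold.Ode
import Pool.Agent.Arnold.Bound
import Pool.Agent.Arnold.Unstable

/-!
# From paths in coordinates to solutions of the polynomial vector field
-/

open Set Filter Topology

namespace Pool.Agent.Arnold

/-- the map of a polynomial vector field is continuously differentiable -/
lemma contDiff_toMap {n : ℕ} (f : PolyField n) : ContDiff ℝ 1 (toMap f) := by
  rw [contDiff_euclidean]
  intro i
  show ContDiff ℝ 1 (fun x : EuclideanSpace ℝ (Fin n) => MvPolynomial.aeval (fun j => x j) (f i))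
  induction f i using MvPolynomial.induction_on with
  | C a => simpa using contDiff_const
  | add p q hp hq => simpa using hp.add hq
  | mul_X p j hp =>
    simp only [map_mul, MvPolynomial.aeval_X]
    exact hp.mul ((EuclideanSpace.proj j : EuclideanSpace ℝ (Fin n) →L[ℝ] ℝ).contDiff)

variable {k : ℕ}

/-- the polynomial field `f` is the field `fld` in the numbering `e` of the coordinates -/
def Represents {n : ℕ} (e : V k ≃ Fin n) (g : ℕ) (Hf : (V k → ℝ) → ℝ) (f : PolyField n) : Prop :=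
  ∀ (y : Fin n → ℝ) (i : Fin n), MvPolynomial.aeval y (f i) =
    fld g (Hf (fun a => y (e a))) (fun a => y (e a)) (e.symm i)

variable {n : ℕ} {e : V k ≃ Fin n} {g : ℕ} {Hf : (V k → ℝ) → ℝ} {f : PolyField n}

/-- the coordinates -/
def crd (e : V k ≃ Fin n) (y : EuclideanSpace ℝ (Fin n)) : V k → ℝ := fun a => y (e a)

lemma nrm_crd (e : V k ≃ Fin n) (y : EuclideanSpace ℝ (Fin n)) : nrm (crd e y) = ‖y‖ ^ 2 := by
  rw [EuclideanSpace.real_norm_sq_eq]
  unfold nrm crd
  exact Equiv.sum_comp e (fun i => y i ^ 2)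

lemma isPath_of (hf : Represents e g Hf f) {m : ℝ → ℝ} {φ : ℝ → EuclideanSpace ℝ (Fin n)}
    (hm : Continuous m) (hm0 : ∀ t, 0 ≤ m t)
    (hφ : ∀ t, 0 ≤ t → HasDerivWithinAt φ (m t • toMap f (φ t)) (Ici 0) t) :
    IsPath g Hf m (fun t => crd e (φ t)) := by
  refine ⟨hm, hm0, fun t ht a => ?_⟩
  have h1 := (EuclideanSpace.proj (e a) : EuclideanSpace ℝ (Fin n) →L[ℝ] ℝ).hasFDerivAt
    (x := φ t) |>.comp_hasDerivWithinAt t (hφ t ht)
  refine h1.congr_deriv ?_
  show m t * MvPolynomial.aeval (fun j => φ t j) (f (e a)) = _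
  rw [hf (fun j => φ t j) (e a), Equiv.symm_apply_apply]
  rfl

lemma isPath_of_sol (hf : Represents e g Hf f) {φ : ℝ → EuclideanSpace ℝ (Fin n)}
    (hφ : IsSolution f φ) : IsPath g Hf (fun _ => 1) (fun t => crd e (φ t)) :=
  isPath_of hf continuous_const (fun _ => zero_le_one) fun t ht => by
    rw [one_smul]; exact hφ t ht

namespace IsPath

variable {m : ℝ → ℝ} {x : ℝ → V k → ℝ}

lemma nrm_le (hH : GoodH g Hf) {C : ℝ} (hN : NoZero g Hf C) (h : IsPath g Hf m x) {t : ℝ}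
    (ht : 0 ≤ t) : nrm (x t) ≤ Real.exp (2 * (Real.pi * (C + 1)) - 2 * Mb g m x t) * nrm (x 0) := by
  rw [h.nrm_path hH t ht]
  apply mul_le_mul_of_nonneg_right _ (nrm_nonneg _)
  apply Real.exp_le_exp.2
  have := lam_bound hH hN h ht
  linarith

lemma nrm_le' (hH : GoodH g Hf) {C : ℝ} (hN : NoZero g Hf C) (h : IsPath g Hf m x) {t : ℝ}
    (ht : 0 ≤ t) : nrm (x t) ≤ Real.exp (2 * (Real.pi * (C + 1))) * nrm (x 0) := by
  refine (h.nrm_le hH hN ht).trans ?_
  apply mul_le_mul_of_nonneg_right _ (nrm_nonneg _)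
  apply Real.exp_le_exp.2
  have := h.Mb_nonneg ht
  linarith

lemma shift (h : IsPath g Hf (fun _ => 1) x) {s : ℝ} (hs : 0 ≤ s) :
    IsPath g Hf (fun _ => 1) (fun t => x (s + t)) := by
  refine ⟨continuous_const, fun _ => zero_le_one, fun t ht i => ?_⟩
  have h1 := h.deriv (s + t) (by positivity) i
  have h2 : HasDerivWithinAt (fun t => s + t) 1 (Ici 0) t :=
    ((hasDerivAt_id t).const_add s).hasDerivWithinAt
  have h3 := HasDerivWithinAt.comp t h1 h2 (fun u hu => mem_Ici.2 (add_nonneg hs hu))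
  exact h3.congr_deriv (by ring)

lemma Mb_ge (hH : GoodH g Hf) {C : ℝ} (hN : NoZero g Hf C) (h : IsPath g Hf (fun _ => 1) x)
    {t : ℝ} (ht : 0 ≤ t) :
    t * (Real.exp (-(2 * (Real.pi * (C + 1)))) * nrm (x t)) ^ (k + g + 4) ≤
      Mb g (fun _ => 1) x t := by
  unfold Mb prim
  have hc := continuous_max_comp h.mb_cont
  have h1 : ∫ _s in (0 : ℝ)..t, (Real.exp (-(2 * (Real.pi * (C + 1)))) * nrm (x t)) ^ (k + g + 4) =
      t * (Real.exp (-(2 * (Real.pi * (C + 1)))) * nrm (x t)) ^ (k + g + 4) := by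
    rw [intervalIntegral.integral_const, sub_zero, smul_eq_mul]
  rw [← h1]
  apply intervalIntegral.integral_mono_on ht (by simp) (hc.intervalIntegrable _ _)
  intro s hs
  rw [max_eq_left hs.1, one_mul]
  apply pow_le_pow_left₀ (mul_nonneg (Real.exp_nonneg _) (nrm_nonneg _))
  have h2 := (h.shift hs.1).nrm_le' hH hN (t := t - s) (by linarith [hs.2])
  simp only [add_sub_cancel, add_zero] at h2
  have h3 : Real.exp (-(2 * (Real.pi * (C + 1)))) * Real.exp (2 * (Real.pi * (C + 1))) = 1 := by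
    rw [← Real.exp_add]; simp
  calc Real.exp (-(2 * (Real.pi * (C + 1)))) * nrm (x t)
      ≤ Real.exp (-(2 * (Real.pi * (C + 1)))) *
        (Real.exp (2 * (Real.pi * (C + 1))) * nrm (x s)) :=
        mul_le_mul_of_nonneg_left h2 (Real.exp_nonneg _)
    _ = nrm (x s) := by rw [← mul_assoc, h3, one_mul]

lemma tendsto_nrm (hH : GoodH g Hf) {C : ℝ} (hN : NoZero g Hf C)
    (h : IsPath g Hf (fun _ => 1) x) : Tendsto (fun t => nrm (x t)) atTop (𝓝 0) := by
  rw [Metric.tendsto_atTop']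
  intro ε hε
  set c : ℝ := (Real.exp (-(2 * (Real.pi * (C + 1)))) * ε) ^ (k + g + 4) with hc
  have hc0 : 0 < c := by positivity
  have hlim : Tendsto (fun t : ℝ => Real.exp (2 * (Real.pi * (C + 1)) - 2 * (t * c)) * nrm (x 0))
      atTop (𝓝 0) := by
    have h1 : Tendsto (fun t : ℝ => 2 * (Real.pi * (C + 1)) - 2 * (t * c)) atTop atBot := by
      have h2 : Tendsto (fun t : ℝ => t * (2 * c)) atTop atTop :=
        tendsto_id.atTop_mul_const (by positivity)
      have h3 := tendsto_neg_atTop_atBot.comp h2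
      have h4 := tendsto_atBot_add_const_left atTop (2 * (Real.pi * (C + 1))) h3
      refine h4.congr fun t => ?_
      simp only [Function.comp]
      ring
    have h5 := (Real.tendsto_exp_atBot.comp h1).mul_const (nrm (x 0))
    simpa using h5
  obtain ⟨N, hN'⟩ := (Filter.eventually_atTop.1 (hlim.eventually (gt_mem_nhds hε)))
  refine ⟨max N 0, fun t ht => ?_⟩
  have ht0 : 0 ≤ t := (le_max_right _ _).trans ht.le
  have htN : N ≤ t := (le_max_left _ _).trans ht.le
  rw [Real.dist_eq, sub_zero, abs_of_nonneg (nrm_nonneg _)]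
  by_contra hcon
  have hcon := not_lt.1 hcon
  have h1 := h.Mb_ge hH hN ht0
  have h2 : t * c ≤ Mb g (fun _ => 1) x t := by
    refine le_trans ?_ h1
    apply mul_le_mul_of_nonneg_left _ ht0
    apply pow_le_pow_left₀ (by positivity)
    exact mul_le_mul_of_nonneg_left hcon (Real.exp_nonneg _)
  have h3 := h.nrm_le hH hN ht0
  have h4 : Real.exp (2 * (Real.pi * (C + 1)) - 2 * Mb g (fun _ => 1) x t) * nrm (x 0) ≤
      Real.exp (2 * (Real.pi * (C + 1)) - 2 * (t * c)) * nrm (x 0) := by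
    apply mul_le_mul_of_nonneg_right _ (nrm_nonneg _)
    apply Real.exp_le_exp.2
    linarith
  have h5 := hN' t htN
  linarith

end IsPath

/-- all notions of stability hold if `NoZero` holds -/
theorem stable_of_noZero (hf : Represents e g Hf f) (hH : GoodH g Hf) {C : ℝ}
    (hN : NoZero g Hf C) : GloballyAsymptoticallyStable f := by
  have hb : ∀ (m : ℝ → ℝ) (φ : ℝ → EuclideanSpace ℝ (Fin n)), Continuous m → (∀ t, 0 ≤ m t) →
      (∀ t, 0 ≤ t → HasDerivWithinAt φ (m t • toMap f (φ t)) (Ici 0) t) →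
      ∀ t, 0 ≤ t → ‖φ t‖ ≤ Real.exp (Real.pi * (C + 1)) * ‖φ 0‖ := by
    intro m φ hm hm0 hφ t ht
    have h1 := (isPath_of hf hm hm0 hφ).nrm_le' hH hN ht
    simp only [nrm_crd] at h1
    have h2 : Real.exp (2 * (Real.pi * (C + 1))) * ‖φ 0‖ ^ 2 =
        (Real.exp (Real.pi * (C + 1)) * ‖φ 0‖) ^ 2 := by
      rw [mul_pow, ← Real.exp_nat_mul]
      norm_num
    rw [h2] at h1
    exact (sq_le_sq₀ (norm_nonneg _) (by positivity)).1 h1
  have hex := exists_global_of_bound (toMap f) (contDiff_toMap f) _ (Real.exp_nonneg _) hb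
  have hsol : ∀ x₀, ∃ φ : ℝ → EuclideanSpace ℝ (Fin n), φ 0 = x₀ ∧ IsSolution f φ ∧
      (∀ t, 0 ≤ t → ‖φ t‖ ≤ Real.exp (Real.pi * (C + 1)) * ‖x₀‖) ∧ Tendsto φ atTop (𝓝 0) := by
    intro x₀
    obtain ⟨φ, hφ0, hφ⟩ := hex x₀
    refine ⟨φ, hφ0, hφ, fun t ht => ?_, ?_⟩
    · rw [← hφ0]
      exact hb (fun _ => 1) φ continuous_const (fun _ => zero_le_one)
        (fun t ht => by rw [one_smul]; exact hφ t ht) t ht
    · have h1 := (isPath_of_sol hf hφ).tendsto_nrm hH hN
      simp only [nrm_crd] at h1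
      rw [tendsto_zero_iff_norm_tendsto_zero]
      have h2 := (Real.continuous_sqrt.tendsto 0).comp h1
      simp only [Real.sqrt_zero] at h2
      refine h2.congr fun t => ?_
      simp only [Function.comp]
      exact Real.sqrt_sq (norm_nonneg _)
  refine ⟨fun ε hε => ⟨ε / Real.exp (Real.pi * (C + 1)), by positivity, fun x₀ hx₀ => ?_⟩,
    fun x₀ => ?_⟩
  · obtain ⟨φ, h1, h2, h3, -⟩ := hsol x₀
    refine ⟨φ, h1, h2, fun t ht => (h3 t ht).trans_lt ?_⟩
    rw [lt_div_iff₀ (Real.exp_pos _)] at hx₀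
    rw [mul_comm]
    exact hx₀
  · obtain ⟨φ, h1, h2, -, h4⟩ := hsol x₀
    exact ⟨φ, h1, h2, h4⟩

/-- Lyapunov stability fails if there is an integer zero -/
theorem not_stable_of_zero (hf : Represents e g Hf f) (hH : GoodH g Hf) (z : Fin k → ℤ)
    (hz : ∀ β, Hf (e0 z β) = 0) : ¬ LyapunovStable f := by
  intro hs
  obtain ⟨ε, hε, hu⟩ := unstable hH z hz
  obtain ⟨δ, hδ, hs⟩ := hs (Real.sqrt ε) (Real.sqrt_pos.2 hε)
  obtain ⟨x₀, hx₀, hu⟩ := hu (δ ^ 2) (by positivity)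
  set y₀ : EuclideanSpace ℝ (Fin n) := WithLp.toLp 2 fun i => x₀ (e.symm i) with hy₀
  have hc : crd e y₀ = x₀ := by
    funext a
    simp [crd, hy₀]
  have h1 : ‖y₀‖ < δ := by
    rw [← hc, nrm_crd] at hx₀
    exact lt_of_pow_lt_pow_left₀ 2 hδ.le hx₀
  obtain ⟨φ, hφ0, hφ, hlt⟩ := hs y₀ h1
  refine hu (fun t => crd e (φ t)) (by simp only [hφ0, hc]) (isPath_of_sol hf hφ) fun t ht => ?_
  rw [nrm_crd]
  have h2 := hlt t ht
  have h3 := Real.sq_sqrt hε.le
  have h4 := norm_nonneg (φ t)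
  nlinarith

lemma las_of_gas (h : GloballyAsymptoticallyStable f) : LocallyAsymptoticallyStable f :=
  ⟨h.1, 1, one_pos, fun x₀ _ => h.2 x₀⟩

end Pool.Agent.Arnold
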